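import Mathlib

open Set Filter

namespace H995SN

/-- `X` has strong measure zero. -/
def SMZ (X : Set ℝ) : Prop :=
  ∀ ε : ℕ → ℝ, (∀ n, 0 < ε n) →
    ∃ a b : ℕ → ℝ, (∀ n, b n - a n < ε n) ∧ X ⊆ ⋃ n, Set.Icc (a n) (b n)

theorem SMZ.mono {X Y : Set ℝ} (h : X ⊆ Y) (hY : SMZ Y) : SMZ X := by
  intro ε hε
  obtain ⟨a, b, h1, h2⟩ := hY ε hε
  exact ⟨a, b, h1, h.trans h2⟩

theorem SMZ.countable {X : Set ℝ} (h : X.Countable) : SMZ X := by
  intro ε hε
  rcases X.eq_empty_or_nonempty with rfl | hne
  · exact ⟨fun _ => 0, fun _ => 0, fun n => by simpa using hε n, by simp⟩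
  · obtain ⟨f, rfl⟩ := h.exists_eq_range hne
    refine ⟨f, f, fun n => by simpa using hε n, ?_⟩
    rintro _ ⟨n, rfl⟩
    exact mem_iUnion.2 ⟨n, by simp⟩

/-! ### Coding by digits `0, 1` in base 4 -/

noncomputable def t (d : ℕ → Bool) (i : ℕ) : ℝ := if d i then (1 / 4 : ℝ) ^ i else 0

theorem t_nonneg (d : ℕ → Bool) (i : ℕ) : 0 ≤ t d i := by
  unfold t; split_ifs <;> positivity

theorem t_le (d : ℕ → Bool) (i : ℕ) : t d i ≤ (1 / 4 : ℝ) ^ i := by
  unfold t; split_ifs
  · exact le_rfl
  · positivity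

theorem summable_geo : Summable (fun i : ℕ => (1 / 4 : ℝ) ^ i) :=
  summable_geometric_of_lt_one (by norm_num) (by norm_num)

theorem summable_t (d : ℕ → Bool) : Summable (t d) :=
  Summable.of_nonneg_of_le (t_nonneg d) (t_le d) summable_geo

noncomputable def phi (d : ℕ → Bool) : ℝ := ∑' i, t d i

noncomputable def tail (d : ℕ → Bool) (n : ℕ) : ℝ := ∑' i, t d (i + n)

theorem phi_split (d : ℕ → Bool) (n : ℕ) :
    phi d = (∑ i ∈ Finset.range n, t d i) + tail d n :=
  ((summable_t d).sum_add_tsum_nat_add n).symm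

theorem tail_nonneg (d : ℕ → Bool) (n : ℕ) : 0 ≤ tail d n :=
  tsum_nonneg fun _ => t_nonneg d _

theorem tail_le (d : ℕ → Bool) (n : ℕ) : tail d n ≤ (4 / 3) * (1 / 4 : ℝ) ^ n := by
  have h1 : tail d n ≤ ∑' i : ℕ, (1 / 4 : ℝ) ^ (i + n) := by
    refine Summable.tsum_le_tsum (fun _ => t_le d _) ?_ ?_
    · exact (summable_nat_add_iff n).2 (summable_t d)
    · exact (summable_nat_add_iff n).2 summable_geo
  have h2 : ∑' i : ℕ, (1 / 4 : ℝ) ^ (i + n) = (4 / 3) * (1 / 4 : ℝ) ^ n := by
    simp_rw [pow_add]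
    rw [tsum_mul_right, tsum_geometric_of_lt_one (by norm_num) (by norm_num)]
    norm_num
  linarith

theorem tail_succ (d : ℕ → Bool) (n : ℕ) : tail d n = t d n + tail d (n + 1) := by
  have h1 := phi_split d n
  have h2 := phi_split d (n + 1)
  rw [Finset.sum_range_succ] at h2
  linarith

theorem tail_zero {d : ℕ → Bool} {n : ℕ} (h : ∀ i, n ≤ i → d i = false) : tail d n = 0 := by
  unfold tail
  have : (fun i => t d (i + n)) = fun _ => 0 := by
    funext i
    simp [t, h (i + n) (Nat.le_add_left _ _)]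
  rw [this]; simp

theorem sum_congr_t {d e : ℕ → Bool} {n : ℕ} (h : ∀ i < n, d i = e i) :
    (∑ i ∈ Finset.range n, t d i) = ∑ i ∈ Finset.range n, t e i := by
  apply Finset.sum_congr rfl
  intro i hi
  unfold t
  rw [h i (Finset.mem_range.1 hi)]

theorem phi_near {d e : ℕ → Bool} {n : ℕ} (h : ∀ i < n, d i = e i)
    (he : ∀ i, n ≤ i → e i = false) :
    phi e ≤ phi d ∧ phi d ≤ phi e + (4 / 3) * (1 / 4 : ℝ) ^ n := by
  have h1 := phi_split d n
  have h2 := phi_split e n
  rw [sum_congr_t h] at h1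
  rw [tail_zero he] at h2
  have h3 := tail_nonneg d n
  have h4 := tail_le d n
  constructor <;> linarith

theorem dist_aux {d e : ℕ → Bool} {n : ℕ} (h : ∀ i < n, d i = e i)
    (hd : d n = true) (he : e n = false) :
    (2 / 3) * (1 / 4 : ℝ) ^ n ≤ phi d - phi e := by
  have h1 := phi_split d n
  have h2 := phi_split e n
  rw [sum_congr_t h] at h1
  rw [tail_succ] at h1 h2
  have h3 : t d n = (1 / 4 : ℝ) ^ n := by simp [t, hd]
  have h4 : t e n = 0 := by simp [t, he]
  have h5 := tail_nonneg d (n + 1)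
  have h6 := tail_le e (n + 1)
  rw [pow_succ] at h6
  rw [h3] at h1
  rw [h4] at h2
  linarith

theorem dist_lt {d e : ℕ → Bool} {m : ℕ} (h : d m ≠ e m) :
    (1 / 2) * (1 / 4 : ℝ) ^ m < |phi d - phi e| := by
  classical
  have hex : ∃ n, d n ≠ e n := ⟨m, h⟩
  let n := Nat.find hex
  have hn : d n ≠ e n := Nat.find_spec hex
  have hnm : n ≤ m := Nat.find_min' hex h
  have hlt : ∀ i < n, d i = e i := fun i hi => by
    by_contra hc
    exact Nat.find_min hex hi hc
  have hpow : (1 / 4 : ℝ) ^ m ≤ (1 / 4 : ℝ) ^ n :=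
    pow_le_pow_of_le_one (by norm_num) (by norm_num) hnm
  have hpos : (0 : ℝ) < (1 / 4 : ℝ) ^ m := by positivity
  cases hd : d n with
  | true =>
    have he : e n = false := by
      cases he : e n with
      | true => exact absurd (hd.trans he.symm) hn
      | false => rfl
    have := dist_aux hlt hd he
    have h2 := le_abs_self (phi d - phi e)
    linarith
  | false =>
    have he : e n = true := by
      cases he : e n with
      | false => exact absurd (hd.trans he.symm) hn
      | true => rfl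
    have := dist_aux (fun i hi => (hlt i hi).symm) he hd
    have h2 := neg_abs_le (phi d - phi e)
    linarith

/-! ### The sets `G g` -/

def pos (g : ℕ → ℕ) : ℕ → ℕ
  | 0 => 0
  | k + 1 => pos g k + (∑ i ∈ Finset.range (pos g k + 1), g i) + 1

theorem pos_lt (g : ℕ → ℕ) (k : ℕ) : pos g k < pos g (k + 1) := by
  simp only [pos]; omega

theorem pos_strictMono (g : ℕ → ℕ) : StrictMono (pos g) := strictMono_nat_of_lt_succ (pos_lt g)

theorem exists_block (g : ℕ → ℕ) (m : ℕ) : ∃ k, pos g k ≤ m ∧ m < pos g (k + 1) := by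
  induction m with
  | zero => exact ⟨0, by simp [pos], by simp [pos]⟩
  | succ m ih =>
    obtain ⟨k, h1, h2⟩ := ih
    by_cases h : m + 1 < pos g (k + 1)
    · exact ⟨k, by omega, h⟩
    · exact ⟨k + 1, by omega, by have := pos_lt g (k + 1); omega⟩

theorem le_pos (g : ℕ → ℕ) {m k : ℕ} (h : m ≤ pos g k) : g m < pos g (k + 1) := by
  simp only [pos]
  have : g m ≤ ∑ i ∈ Finset.range (pos g k + 1), g i :=
    Finset.single_le_sum (f := g) (fun _ _ => Nat.zero_le _) (Finset.mem_range.2 (by omega))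
  omega

/-- 0-1 sequences supported on the range of `pos g` -/
def Supp (g : ℕ → ℕ) : Set (ℕ → Bool) := {d | ∀ i, d i = true → ∃ k, i = pos g k}

def G (g : ℕ → ℕ) : Set ℝ := phi '' Supp g

theorem not_smz_G (g : ℕ → ℕ) : ¬ SMZ (G g) := by
  classical
  intro hS
  obtain ⟨l, r, hlen, hcov⟩ := hS (fun n => (1 / 2) * (1 / 4 : ℝ) ^ (pos g n))
    (fun n => by positivity)
  -- diagonalise
  let s : ℕ → Bool := fun n =>
    if h : ∃ d ∈ Supp g, phi d ∈ Icc (l n) (r n) then !(h.choose (pos g n)) else false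
  let d : ℕ → Bool := fun i => decide (∃ n, i = pos g n ∧ s n = true)
  have hd : ∀ n, d (pos g n) = s n := by
    intro n
    show decide (∃ n', pos g n = pos g n' ∧ s n' = true) = s n
    cases hs : s n with
    | true =>
      rw [decide_eq_true_iff]
      exact ⟨n, rfl, hs⟩
    | false =>
      rw [decide_eq_false_iff_not]
      rintro ⟨n', h1, h2⟩
      have := (pos_strictMono g).injective h1
      subst this
      rw [hs] at h2
      exact absurd h2 (by simp)
  have hdS : d ∈ Supp g := by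
    intro i hi
    have : ∃ n, i = pos g n ∧ s n = true := by simpa [d] using hi
    obtain ⟨n, h1, -⟩ := this
    exact ⟨n, h1⟩
  have hmem : phi d ∈ G g := ⟨d, hdS, rfl⟩
  obtain ⟨n, hn⟩ := mem_iUnion.1 (hcov hmem)
  have hex : ∃ d ∈ Supp g, phi d ∈ Icc (l n) (r n) := ⟨d, hdS, hn⟩
  have hsn : s n = !(hex.choose (pos g n)) := by
    simp only [s, dif_pos hex]
  have hspec := hex.choose_spec.2
  have hne : d (pos g n) ≠ hex.choose (pos g n) := by
    rw [hd, hsn]
    cases hex.choose (pos g n) <;> simp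
  have h1 := dist_lt hne
  have h2 := hlen n
  have h3 : |phi d - phi hex.choose| ≤ r n - l n := by
    rw [abs_le]
    constructor <;> linarith [hn.1, hn.2, hspec.1, hspec.2]
  linarith

/-! ### the covering -/

theorem exists_pow_le {δ : ℝ} (hδ : 0 < δ) : ∃ N : ℕ, (4 / 3) * (1 / 4 : ℝ) ^ N ≤ δ := by
  obtain ⟨N, hN⟩ := exists_pow_lt_of_lt_one (show (0:ℝ) < (3 / 4) * δ by positivity)
    (show (1 / 4 : ℝ) < 1 by norm_num)
  exact ⟨N, by linarith⟩

theorem even_cover (ε : ℕ → ℝ) (hε : ∀ n, 0 < ε n) :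
    ∃ (l : ℕ → ℝ) (h : ℕ → ℕ), Monotone h ∧ ∀ (d : ℕ → Bool) (n : ℕ),
      (∀ i, n ≤ i → i < h n → d i = false) → ∃ j, phi d ∈ Icc (l j) (l j + ε j / 2) := by
  classical
  choose H hH using fun j => exists_pow_le (show 0 < ε j / 2 by have := hε j; positivity)
  let ext : List Bool → ℕ → Bool := fun v i => v.getD i false
  let l : ℕ → ℝ := fun j => match (Encodable.decode j : Option (List Bool)) with
    | some v => phi (ext v)
    | none => 0
  let h0 : ℕ → ℕ := fun n => max n
    ((Finset.univ : Finset (Fin n → Bool)).sup (fun v => H (Encodable.encode (List.ofFn v))))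
  let h : ℕ → ℕ := fun n => ∑ i ∈ Finset.range (n + 1), h0 i
  refine ⟨l, h, ?_, ?_⟩
  · intro a b hab
    exact Finset.sum_le_sum_of_subset (Finset.range_mono (by omega))
  · intro d n hdn
    let v : Fin n → Bool := fun i => d i
    let L : List Bool := List.ofFn v
    let j : ℕ := Encodable.encode L
    have hlj : l j = phi (ext L) := by
      simp only [l, j, Encodable.encodek]
    have hlen : L.length = n := List.length_ofFn
    have hN1 : max n (H j) ≤ h n := by
      have h1 : max n (H j) ≤ h0 n := by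
        apply max_le_max le_rfl
        exact Finset.le_sup (f := fun v : Fin n → Bool => H (Encodable.encode (List.ofFn v)))
          (Finset.mem_univ v)
      have h2 : h0 n ≤ h n :=
        Finset.single_le_sum (f := h0) (fun _ _ => Nat.zero_le _) (Finset.mem_range.2 (by omega))
      exact h1.trans h2
    have hext_lt : ∀ i, i < n → ext L i = d i := by
      intro i hi
      show L.getD i false = d i
      rw [List.getD_eq_getElem _ _ (by rw [hlen]; exact hi)]
      simp [L, v]
    have hext_ge : ∀ i, n ≤ i → ext L i = false := by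
      intro i hi
      show L.getD i false = false
      exact List.getD_eq_default _ _ (by rw [hlen]; exact hi)
    have key := phi_near (d := d) (e := ext L) (n := max n (H j))
      (fun i hi => by
        by_cases hin : i < n
        · exact (hext_lt i hin).symm
        · rw [hext_ge i (by omega)]
          exact hdn i (by omega) (by omega))
      (fun i hi => hext_ge i (le_trans (le_max_left _ _) hi))
    have hpow : (1 / 4 : ℝ) ^ (max n (H j)) ≤ (1 / 4 : ℝ) ^ (H j) :=
      pow_le_pow_of_le_one (by norm_num) (by norm_num) (le_max_right _ _)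
    have hHj := hH j
    refine ⟨j, ?_, ?_⟩
    · rw [hlj]; exact key.1
    · rw [hlj]; linarith [key.2]

/-- If `phi d` (with `d` supported on `pos g`) is not caught then `g` is bounded. -/
theorem bound_of_sparse {g h : ℕ → ℕ} (hm : Monotone h) {d : ℕ → Bool} (hd : d ∈ Supp g)
    (hh : ∀ n, ∃ i, n ≤ i ∧ i < h n ∧ d i = true) (m : ℕ) :
    g m ≤ h (h (m + 1) + 1) := by
  have key : ∀ k, pos g (k + 1) < h (pos g k + 1) := by
    intro k
    obtain ⟨i, h1, h2, h3⟩ := hh (pos g k + 1)
    obtain ⟨k', rfl⟩ := hd i h3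
    have hk : k < k' := (pos_strictMono g).lt_iff_lt.1 (by omega)
    have : pos g (k + 1) ≤ pos g k' := (pos_strictMono g).monotone hk
    omega
  obtain ⟨k, h1, h2⟩ := exists_block g m
  have e1 : g m < pos g (k + 1 + 1) := le_pos g (by omega)
  have e2 := key (k + 1)
  have e3 := key k
  have e4 : h (pos g k + 1) ≤ h (m + 1) := hm (by omega)
  have e5 : h (pos g (k + 1) + 1) ≤ h (h (m + 1) + 1) := hm (by omega)
  show g m ≤ h (h (m + 1) + 1)
  omega

end H995SN
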