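import Pool.Agent.H995R3.SN.Structure

set_option linter.deprecated false

open Set Filter Cardinal

namespace H995SN

/-- A set of size `< 𝔟` is covered by countably many compact sets on which a given Borel map is
continuous. -/
theorem compact_split {α γ : Type} [MetricSpace α] [SecondCountableTopology α] [CompleteSpace α]
    [MeasurableSpace α] [BorelSpace α] [Nonempty α] [TopologicalSpace γ]
    [SecondCountableTopology γ] [MeasurableSpace γ] [BorelSpace γ]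
    {X : Set α} (hc : #X < bNum) {ψ : α → γ} (hψ : Measurable ψ) :
    ∃ C : ℕ → Set α, (∀ m, ContinuousOn ψ (C m)) ∧ (∀ m, IsCompact (C m)) ∧ X ⊆ ⋃ m, C m := by
  classical
  obtain ⟨π, hπ1, hφ, hsurj⟩ : ∃ π : (ℕ → ℕ) → α, Continuous π ∧
      Continuous (fun x => ψ (π x)) ∧ Function.Surjective π := by
    obtain ⟨t', ht', hcont, hpol⟩ := hψ.exists_continuous
    obtain ⟨π, hπ, hsurj⟩ : ∃ π : (ℕ → ℕ) → α, @Continuous _ _ _ t' π ∧
        Function.Surjective π :=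
      @PolishSpace.exists_nat_nat_continuous_surjective α t' hpol _
    exact ⟨π, continuous_le_rng ht' hπ, @Continuous.comp _ _ _ _ t' _ _ _ hcont hπ, hsurj⟩
  choose s hs using hsurj
  have hB : #(s '' X) < bNum := lt_of_le_of_lt mk_image_le hc
  obtain ⟨h, hh⟩ := bNum_spec_lt hB
  let K : ℕ → Set (ℕ → ℕ) := fun m => {x | ∀ n, x n ≤ h n + m}
  have hK : ∀ m, IsCompact (K m) := fun m => isCompact_box _
  refine ⟨fun m => π '' K m, fun m => ?_, fun m => (hK m).image hπ1, ?_⟩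
  · rw [continuousOn_iff_isClosed]
    intro t ht
    refine ⟨π '' (K m ∩ (fun x => ψ (π x)) ⁻¹' t), ?_, ?_⟩
    · exact (((hK m).inter_right (ht.preimage hφ)).image hπ1).isClosed
    · ext y
      constructor
      · rintro ⟨h1, x, hx, rfl⟩
        exact ⟨⟨x, ⟨hx, h1⟩, rfl⟩, ⟨x, hx, rfl⟩⟩
      · rintro ⟨⟨x, ⟨hx, h1⟩, rfl⟩, h2⟩
        exact ⟨h1, h2⟩
  · intro x hx
    obtain ⟨N, hN⟩ := eventually_atTop.1 (hh (s x) ⟨x, hx, rfl⟩)
    refine mem_iUnion.2 ⟨∑ i ∈ Finset.range N, s x i, s x, ?_, hs x⟩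
    intro n
    by_cases hn : n < N
    · have : s x n ≤ ∑ i ∈ Finset.range N, s x i :=
        Finset.single_le_sum (f := s x) (fun _ _ => Nat.zero_le _) (Finset.mem_range.2 hn)
      omega
    · have := hN n (by omega)
      omega

/-- The points approximated arbitrarily well by sequences coded in `X`. -/
def Ecl (c : ℝ → ℕ → ℝ) (X : Set ℝ) : Set ℝ :=
  {x | ∀ ε : ℕ → ℝ, (∀ n, 0 < ε n) → ∃ y ∈ X, ∀ N, ∃ n, N ≤ n ∧ |x - c y n| < ε n}

theorem smz_Ecl (hcof : cofSN ≤ ℵ₁) {c : ℝ → ℕ → ℝ} (hcm : Measurable c) {X : Set ℝ}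
    (hX : SMZ X) : SMZ (Ecl c X) := by
  classical
  by_contra hc
  obtain ⟨Y, hYX, hYc, hYn⟩ := exists_small_subset hc
  have hb : ℵ₁ < bNum := (of_cofSN_le hcof).2.2
  have hY1 : #Y < bNum := (hYc.trans hcof).trans_lt hb
  apply hYn
  rw [smz_iff]
  intro ε₀ hε₀
  obtain ⟨e0, he01, he02⟩ := exists_anti ε₀ hε₀
  have hle0 : ∀ m n, m ≤ n → e0 (Nat.pair n n) ≤ ε₀ (Nat.pair m n) := by
    intro m n hmn
    apply he02
    rcases hmn.lt_or_eq with h | h
    · exact (Nat.pair_lt_pair_left n h).le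
    · rw [h]
  -- the codes
  choose! y hyX hyN using fun x (hx : x ∈ Y) =>
    hYX hx (fun n => e0 (Nat.pair n n) / 2) (fun n => by have := he01 (Nat.pair n n); positivity)
  choose! f hf1 hf2 using hyN
  have hX'c : #(y '' Y) < bNum := lt_of_le_of_lt mk_image_le hY1
  obtain ⟨C, hC1, hC2, hC3⟩ := compact_split hX'c hcm
  have hBf : #((fun x => f x) '' Y) < bNum := lt_of_le_of_lt mk_image_le hY1
  obtain ⟨h, hh⟩ := bNum_spec_lt hBf
  choose blk hblk1 hblk2 using exists_block h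
  have key : ∀ m, ∃ D : ℕ → ℝ, ∀ x ∈ Y, y x ∈ C m → ∃ n, |x - D n| ≤ ε₀ (Nat.pair m n) := by
    intro m
    have hunif : ∀ n, UniformContinuousOn (fun z => c z n) (C m) := fun n =>
      (hC2 m).uniformContinuousOn_of_continuous
        ((continuous_apply n).comp_continuousOn (hC1 m))
    have hδ : ∀ n, ∃ δ > 0, ∀ z ∈ C m, ∀ z' ∈ C m, |z - z'| < δ →
        |c z n - c z' n| < ε₀ (Nat.pair m n) / 2 := by
      intro n
      obtain ⟨δ, h1, h2⟩ := Metric.uniformContinuousOn_iff.1 (hunif n) (ε₀ (Nat.pair m n) / 2)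
        (by have := hε₀ (Nat.pair m n); positivity)
      exact ⟨δ, h1, fun z hz z' hz' hd => h2 z hz z' hz' hd⟩
    choose δ hδ1 hδ2 using hδ
    obtain ⟨e, he1, he2⟩ := exists_anti δ hδ1
    let X' : Set ℝ := y '' {x | x ∈ Y ∧ y x ∈ C m}
    have hX'X : X' ⊆ X := by
      rintro _ ⟨x, hx, rfl⟩
      exact hyX x hx.1
    have hX'C : X' ⊆ C m := by
      rintro _ ⟨x, hx, rfl⟩
      exact hx.2
    have hX' : SM X' := smz_iff.1 (hX.mono hX'X)
    obtain ⟨d, hd⟩ := hX'.io (fun k => e (pos h (k + 1)) / 3)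
      (fun k => by have := he1 (pos h (k + 1)); positivity)
    refine ⟨fun n => if hex : ∃ z ∈ X', z ∈ Metric.closedBall (d (blk n))
      (e (pos h (blk n + 1)) / 3) then c hex.choose n else 0, ?_⟩
    intro x hx hxC
    have hyX' : y x ∈ X' := ⟨x, ⟨hx, hxC⟩, rfl⟩
    obtain ⟨N, hN⟩ := eventually_atTop.1 (hh _ ⟨x, hx, rfl⟩)
    obtain ⟨k, hk1, hk2⟩ := hd (y x) hyX' (max N m)
    have hkp : k ≤ pos h k := le_pos_self h k
    have h1 : f x (pos h k) ≤ h (pos h k) :=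
      hN _ (((le_max_left _ _).trans hk1).trans hkp)
    have h2 : h (pos h k) < pos h (k + 1) := le_pos h le_rfl
    have h3 : pos h k ≤ f x (pos h k) := hf1 x hx _
    have hb' : blk (f x (pos h k)) = k :=
      block_unique (hblk1 _) (hblk2 _) h3 (lt_of_le_of_lt h1 h2)
    refine ⟨f x (pos h k), ?_⟩
    have hex : ∃ z ∈ X', z ∈ Metric.closedBall (d (blk (f x (pos h k))))
        (e (pos h (blk (f x (pos h k)) + 1)) / 3) := by
      rw [hb']
      exact ⟨y x, hyX', hk2⟩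
    simp only [dif_pos hex]
    have hs := hex.choose_spec
    set z := hex.choose with hz
    rw [hb'] at hs
    have hdist : |y x - z| < δ (f x (pos h k)) := by
      have a1 : |y x - d k| ≤ e (pos h (k + 1)) / 3 := hk2
      have a2 : |z - d k| ≤ e (pos h (k + 1)) / 3 := hs.2
      have a3 : e (pos h (k + 1)) ≤ δ (f x (pos h k)) := he2 _ _ (by omega)
      have a4 := he1 (pos h (k + 1))
      have a5 : |y x - z| ≤ |y x - d k| + |z - d k| := by
        have := abs_sub_le (y x) (d k) z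
        rwa [abs_sub_comm (d k) z] at this
      linarith
    have b1 := hδ2 (f x (pos h k)) (y x) hxC z (hX'C hs.1) hdist
    have b2 : |x - c (y x) (f x (pos h k))| <
        e0 (Nat.pair (f x (pos h k)) (f x (pos h k))) / 2 := hf2 x hx (pos h k)
    have b3 := hle0 m (f x (pos h k)) (by have := (le_max_right N m).trans hk1; omega)
    have b4 := abs_sub_le x (c (y x) (f x (pos h k))) (c z (f x (pos h k)))
    linarith
  choose D hD using key
  refine ⟨fun p => D p.unpair.1 p.unpair.2, fun x hx => ?_⟩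
  obtain ⟨m, hm⟩ := mem_iUnion.1 (hC3 ⟨x, hx, rfl⟩)
  obtain ⟨n, hn⟩ := hD m x hx hm
  refine mem_iUnion.2 ⟨Nat.pair m n, ?_⟩
  rw [Metric.mem_closedBall, Real.dist_eq]
  simpa using hn

/-! ### chains -/

/-- the index set of the chains: the ordinals below `ω₁` -/
abbrev W1 : Type := (ℵ₁ : Cardinal.{0}).ord.ToType

theorem mk_W1 : #W1 = ℵ₁ := mk_ord_toType _

theorem countable_Iic (a : W1) : (Iic a).Countable := by
  have h1 : #(Iio a) < ℵ₁ := mk_Iio_ord_toType a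
  have h2 : (Iio a).Countable := by
    rw [← le_aleph0_iff_set_countable, ← Order.lt_succ_iff, succ_aleph0]
    exact h1
  rw [← Iio_insert]
  exact h2.insert a

theorem SMZ.biUnion {ι : Type} {s : Set ι} (hs : s.Countable) {f : ι → Set ℝ}
    (h : ∀ i ∈ s, SMZ (f i)) : SMZ (⋃ i ∈ s, f i) := by
  rcases s.eq_empty_or_nonempty with rfl | hne
  · exact SMZ.countable (by simp)
  · obtain ⟨u, rfl⟩ := hs.exists_eq_range hne
    rw [biUnion_range]
    exact SMZ.iUnion fun n => h _ ⟨n, rfl⟩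

theorem exists_chain (hcof : cofSN ≤ ℵ₁) : ∃ X : W1 → Set ℝ, Monotone X ∧ (∀ a, SMZ (X a)) ∧
    ∀ Y, SMZ Y → ∃ a, Y ⊆ X a := by
  obtain ⟨F, hF, h1, h2⟩ := cofSN_spec
  have hF1 : #F = ℵ₁ := hF.trans (of_cofSN_le hcof).1
  obtain ⟨e⟩ : Nonempty (W1 ≃ F) := Cardinal.eq.1 (mk_W1.trans hF1.symm)
  refine ⟨fun a => ⋃ b ∈ Iic a, (e b : Set ℝ), ?_, ?_, ?_⟩
  · intro a a' haa'
    exact biUnion_subset_biUnion_left (Iic_subset_Iic.2 haa')
  · intro a
    exact SMZ.biUnion (countable_Iic a) fun b _ => h1 _ (e b).2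
  · intro Y hY
    obtain ⟨A, hA, hsub⟩ := h2 Y hY
    refine ⟨e.symm ⟨A, hA⟩, hsub.trans ?_⟩
    intro x hx
    refine mem_biUnion (x := e.symm ⟨A, hA⟩) (mem_Iic.2 le_rfl) ?_
    simpa using hx

theorem cofSN_le_of_chain {X : W1 → Set ℝ} (h1 : ∀ a, SMZ (X a))
    (h2 : ∀ Y, SMZ Y → ∃ a, Y ⊆ X a) : cofSN ≤ ℵ₁ := by
  have : cofSN ≤ #(range X) := by
    apply csInf_le'
    refine ⟨range X, rfl, ?_, fun Y hY => ?_⟩
    · rintro _ ⟨a, rfl⟩
      exact h1 a
    · obtain ⟨a, ha⟩ := h2 Y hY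
      exact ⟨X a, ⟨a, rfl⟩, ha⟩
  exact this.trans (mk_range_le.trans_eq mk_W1)

theorem fields_iff : cofSN ≤ ℵ₁ ↔ ∃ F : W1 → Subfield ℝ, Monotone F ∧
    ∀ Y : Set ℝ, SMZ Y ↔ ∃ a, Y ⊆ F a := by
  constructor
  · intro hcof
    obtain ⟨X, hm, h1, h2⟩ := exists_chain hcof
    refine ⟨fun a => Subfield.closure (X a), fun a b hab => Subfield.closure_mono (hm hab),
      fun Y => ⟨fun hY => ?_, ?_⟩⟩
    · obtain ⟨a, ha⟩ := h2 Y hY
      exact ⟨a, ha.trans Subfield.subset_closure⟩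
    · rintro ⟨a, ha⟩
      exact (smz_closure hcof (h1 a)).mono ha
  · rintro ⟨F, -, hF⟩
    exact cofSN_le_of_chain (X := fun a => (F a : Set ℝ)) (fun a => (hF _).2 ⟨a, Subset.rfl⟩)
      (fun Y hY => (hF Y).1 hY)

theorem chain_iff {c : ℝ → ℕ → ℝ} (hcm : Measurable c) (hcs : Function.Surjective c) :
    cofSN ≤ ℵ₁ ↔ ℵ₁ < bNum ∧ ∃ X : W1 → Set ℝ, Monotone X ∧ (∀ a, SMZ (X a)) ∧
      (⋃ a, X a) = Set.univ ∧ ∀ a, ∃ b, Ecl c (X a) ⊆ X b := by
  constructor
  · intro hcof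
    obtain ⟨X, hm, h1, h2⟩ := exists_chain hcof
    refine ⟨(of_cofSN_le hcof).2.2, X, hm, h1, ?_, fun a => h2 _ (smz_Ecl hcof hcm (h1 a))⟩
    rw [eq_univ_iff_forall]
    intro x
    obtain ⟨a, ha⟩ := h2 {x} (SMZ.countable (countable_singleton x))
    exact mem_iUnion.2 ⟨a, ha rfl⟩
  · rintro ⟨hb, X, hm, h1, hU, hE⟩
    apply cofSN_le_of_chain h1
    intro Y hY
    by_contra hno
    push Not at hno
    -- choose points outside the closures
    have hpt : ∀ a, ∃ x ∈ Y, x ∉ Ecl c (X a) := by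
      intro a
      obtain ⟨b, hb'⟩ := hE a
      obtain ⟨x, hx, hxb⟩ := not_subset.1 (hno b)
      exact ⟨x, hx, fun h => hxb (hb' h)⟩
    choose x hxY hxE using hpt
    have hgap : ∀ a, ∃ g : ℕ → ℕ, ∀ y ∈ X a, ∀ᶠ n in atTop,
        1 / ((g n : ℝ) + 1) ≤ |x a - c y n| := by
      intro a
      have := hxE a
      simp only [Ecl, mem_setOf_eq] at this
      push Not at this
      obtain ⟨ε, hε, hεX⟩ := this
      choose g hg using fun n => exists_nat_one_div_lt (hε n)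
      refine ⟨g, fun y hy => ?_⟩
      obtain ⟨N, hN⟩ := hεX y hy
      filter_upwards [eventually_ge_atTop N] with n hn
      exact (hg n).le.trans (hN n hn)
    choose g hg using hgap
    have hcard : #(range g) < bNum := lt_of_le_of_lt (mk_range_le.trans_eq mk_W1) hb
    obtain ⟨h, hh⟩ := bNum_spec_lt hcard
    obtain ⟨q, hq⟩ := (smz_iff.1 hY).io (fun n => 1 / ((h n : ℝ) + 1) / 2)
      (fun n => by positivity)
    obtain ⟨y, rfl⟩ := hcs q
    obtain ⟨a, ha⟩ := mem_iUnion.1 (hU ▸ mem_univ y : y ∈ ⋃ a, X a)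
    obtain ⟨N, hN⟩ := eventually_atTop.1 ((hg a y ha).and (hh (g a) ⟨a, rfl⟩))
    obtain ⟨n, hn, hmem⟩ := hq (x a) (hxY a) N
    obtain ⟨h3, h4⟩ := hN n hn
    rw [Metric.mem_closedBall, Real.dist_eq] at hmem
    have h5 : (1 : ℝ) / ((h n : ℝ) + 1) ≤ 1 / ((g a n : ℝ) + 1) := by
      apply one_div_le_one_div_of_le (by positivity)
      have : (g a n : ℝ) ≤ h n := by exact_mod_cast h4
      linarith
    have h6 : (0 : ℝ) < 1 / ((h n : ℝ) + 1) := by positivity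
    linarith

theorem uncountable_baire : Uncountable (ℕ → ℕ) := by
  rw [← Cardinal.aleph0_lt_mk_iff]
  simp [aleph0_lt_continuum]

/-- there is a dominating family all of whose Borel images are SMZ -/
theorem exists_dominating (hcof : cofSN ≤ ℵ₁) : ∃ D : Set (ℕ → ℕ),
    (∀ f, ∃ g ∈ D, EvDom f g) ∧ ∀ ψ : (ℕ → ℕ) → ℝ, Measurable ψ → SMZ (ψ '' D) := by
  obtain ⟨X, hm, h1, h2⟩ := exists_chain hcof
  have hb : ℵ₁ < bNum := (of_cofSN_le hcof).2.2
  let θ : (ℕ → ℕ) ≃ᵐ ℝ := PolishSpace.measurableEquivOfNotCountable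
    (not_countable_iff.2 uncountable_baire) (by rw [not_countable_iff]; infer_instance)
  have hdom : ∃ a, ∀ f, ∃ g ∈ θ ⁻¹' (X a), EvDom f g := by
    by_contra hc
    push Not at hc
    choose f hf using hc
    have hcard : #(range f) < bNum := lt_of_le_of_lt (mk_range_le.trans_eq mk_W1) hb
    obtain ⟨h, hh⟩ := bNum_spec_lt hcard
    obtain ⟨a, ha⟩ := h2 {θ h} (SMZ.countable (countable_singleton _))
    exact hf a h (ha rfl) (hh _ ⟨a, rfl⟩)
  obtain ⟨a, ha⟩ := hdom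
  refine ⟨θ ⁻¹' (X a), ha, fun ψ hψ => ?_⟩
  have := image_borel hcof (hψ.comp θ.symm.measurable) (h1 a)
  refine this.mono ?_
  rintro _ ⟨x, hx, rfl⟩
  exact ⟨θ x, hx, by simp⟩

end H995SN
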