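import Pool.Agent.H995R3.SN.Metric

set_option linter.deprecated false

open Set Filter Cardinal

namespace H995SN

/-! ### digit series with variable radices `M k` -/

def q (M : ℕ → ℕ) (k : ℕ) : ℕ := ∏ l ∈ Finset.range k, M l

theorem q_succ (M : ℕ → ℕ) (k : ℕ) : q M (k + 1) = q M k * M k := Finset.prod_range_succ _ _

theorem q_zero (M : ℕ → ℕ) : q M 0 = 1 := rfl

variable {M : ℕ → ℕ}

theorem q_pos (hM : ∀ k, 2 ≤ M k) (k : ℕ) : 0 < q M k :=
  Finset.prod_pos fun l _ => by have := hM l; omega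

theorem q_pos' (hM : ∀ k, 2 ≤ M k) (k : ℕ) : (0 : ℝ) < q M k := by exact_mod_cast q_pos hM k

theorem q_ge (hM : ∀ k, 2 ≤ M k) (k : ℕ) : k < q M k := by
  induction k with
  | zero => simp [q_zero]
  | succ k ih =>
    rw [q_succ]
    have := hM k
    nlinarith

theorem q_succ_real (k : ℕ) : (q M (k + 1) : ℝ) = q M k * M k := by
  rw [q_succ]; push_cast; ring

noncomputable def tm (M d : ℕ → ℕ) (k : ℕ) : ℝ := (d k : ℝ) / q M (k + 1)

theorem tm_nonneg (d : ℕ → ℕ) (k : ℕ) : 0 ≤ tm M d k := by unfold tm; positivity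

theorem tm_le (hM : ∀ k, 2 ≤ M k) {d : ℕ → ℕ} (hd : ∀ k, d k < M k) (k : ℕ) :
    tm M d k ≤ 1 / q M k - 1 / q M (k + 1) := by
  have h1 := q_pos' hM k
  have h2 := q_pos' hM (k + 1)
  have h3 : (d k : ℝ) ≤ M k - 1 := by
    have : d k + 1 ≤ M k := hd k
    have : ((d k + 1 : ℕ) : ℝ) ≤ M k := by exact_mod_cast this
    push_cast at this
    linarith
  have h4 : (1 : ℝ) / q M k - 1 / q M (k + 1) = (M k - 1) / q M (k + 1) := by
    rw [q_succ_real]
    have : (M k : ℝ) ≠ 0 := by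
      have := hM k
      positivity
    field_simp
  rw [h4]
  unfold tm
  gcongr

theorem sum_tm_le (hM : ∀ k, 2 ≤ M k) {d : ℕ → ℕ} (hd : ∀ k, d k < M k) (n m : ℕ) :
    ∑ i ∈ Finset.range m, tm M d (i + n) ≤ 1 / q M n - 1 / q M (m + n) := by
  induction m with
  | zero => simp
  | succ m ih =>
    rw [Finset.sum_range_succ]
    have := tm_le hM hd (m + n)
    have e : m + 1 + n = m + n + 1 := by ring
    rw [e]
    linarith

theorem sum_tm_le' (hM : ∀ k, 2 ≤ M k) {d : ℕ → ℕ} (hd : ∀ k, d k < M k) (n m : ℕ) :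
    ∑ i ∈ Finset.range m, tm M d (i + n) ≤ 1 / q M n := by
  have h1 := sum_tm_le hM hd n m
  have h2 : (0 : ℝ) < 1 / q M (m + n) := by have := q_pos' hM (m + n); positivity
  linarith

theorem summable_tm (hM : ∀ k, 2 ≤ M k) {d : ℕ → ℕ} (hd : ∀ k, d k < M k) :
    Summable (tm M d) :=
  summable_of_sum_range_le (c := 1 / q M 0) (tm_nonneg d) fun m => by
    simpa using sum_tm_le' hM hd 0 m

noncomputable def D (M d : ℕ → ℕ) : ℝ := ∑' k, tm M d k

noncomputable def T (M d : ℕ → ℕ) (n : ℕ) : ℝ := ∑' k, tm M d (k + n)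

theorem T_nonneg (d : ℕ → ℕ) (n : ℕ) : 0 ≤ T M d n := tsum_nonneg fun _ => tm_nonneg d _

theorem T_le (hM : ∀ k, 2 ≤ M k) {d : ℕ → ℕ} (hd : ∀ k, d k < M k) (n : ℕ) :
    T M d n ≤ 1 / q M n :=
  Real.tsum_le_of_sum_range_le (fun _ => tm_nonneg d _) fun m => sum_tm_le' hM hd n m

theorem D_split (hM : ∀ k, 2 ≤ M k) {d : ℕ → ℕ} (hd : ∀ k, d k < M k) (n : ℕ) :
    D M d = (∑ i ∈ Finset.range n, tm M d i) + T M d n :=
  ((summable_tm hM hd).sum_add_tsum_nat_add n).symm

theorem T_succ (hM : ∀ k, 2 ≤ M k) {d : ℕ → ℕ} (hd : ∀ k, d k < M k) (n : ℕ) :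
    T M d n = tm M d n + T M d (n + 1) := by
  have h1 := D_split hM hd n
  have h2 := D_split hM hd (n + 1)
  rw [Finset.sum_range_succ] at h2
  linarith

/-- the initial sums are multiples of `1 / q n` -/
theorem exists_int (hM : ∀ k, 2 ≤ M k) (d : ℕ → ℕ) (n : ℕ) :
    ∃ p : ℕ, (∑ i ∈ Finset.range n, tm M d i) = (p : ℝ) / q M n := by
  induction n with
  | zero => exact ⟨0, by simp⟩
  | succ n ih =>
    obtain ⟨p, hp⟩ := ih
    refine ⟨p * M n + d n, ?_⟩
    rw [Finset.sum_range_succ, hp, tm, q_succ_real]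
    have h1 := q_pos' hM n
    have h2 : (0 : ℝ) < M n := by have := hM n; positivity
    push_cast
    field_simp

theorem sum_lt_one (hM : ∀ k, 2 ≤ M k) {d : ℕ → ℕ} (hd : ∀ k, d k < M k) (n : ℕ) :
    (∑ i ∈ Finset.range n, tm M d i) < 1 := by
  have h1 := sum_tm_le hM hd 0 n
  have h2 : (0 : ℝ) < 1 / q M (n + 0) := by have := q_pos' hM (n + 0); positivity
  simp only [add_zero, q_zero] at h1 h2
  push_cast at h1
  linarith

theorem tm_congr {d e : ℕ → ℕ} {n : ℕ} (h : ∀ i < n, d i = e i) :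
    (∑ i ∈ Finset.range n, tm M d i) = ∑ i ∈ Finset.range n, tm M e i :=
  Finset.sum_congr rfl fun i hi => by unfold tm; rw [h i (Finset.mem_range.1 hi)]

theorem D_near (hM : ∀ k, 2 ≤ M k) {d e : ℕ → ℕ} (hd : ∀ k, d k < M k) (he : ∀ k, e k < M k)
    {n : ℕ} (h : ∀ i < n, d i = e i) : |D M d - D M e| ≤ 1 / q M n := by
  rw [D_split hM hd n, D_split hM he n, tm_congr h, abs_le]
  have := T_nonneg (M := M) d n
  have := T_nonneg (M := M) e n
  have := T_le hM hd n
  have := T_le hM he n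
  constructor <;> linarith

/-! ### the closed nowhere dense set -/

/-- reals which stay away from all multiples of `1 / q k` -/
def away (M : ℕ → ℕ) : Set ℝ := {x | ∀ (k : ℕ) (p : ℤ), 1 / (q M (k + 1) : ℝ) ≤ |x - p / q M k|}

theorem isClosed_away : IsClosed (away M) := by
  have : away M = ⋂ (k : ℕ) (p : ℤ), {x : ℝ | 1 / (q M (k + 1) : ℝ) ≤ |x - p / q M k|} := by
    ext x; simp [away]
  rw [this]
  refine isClosed_iInter fun k => isClosed_iInter fun p => ?_
  exact isClosed_le continuous_const (by fun_prop)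

theorem interior_away (hM : ∀ k, 2 ≤ M k) : interior (away M) = ∅ := by
  rw [interior_eq_empty_iff_dense_compl, Metric.dense_iff]
  intro x r hr
  obtain ⟨k, hk⟩ := exists_nat_one_div_lt hr
  have hq := q_pos' hM k
  have hqk : (1 : ℝ) / q M k < r ∨ True := Or.inr trivial
  obtain ⟨n, hn⟩ := exists_nat_gt (1 / r)
  have hqn := q_pos' hM n
  have h1 : (1 : ℝ) / q M n < r := by
    have h2 : (n : ℝ) < q M n := by exact_mod_cast q_ge hM n
    rw [div_lt_iff₀ hqn]
    rw [div_lt_iff₀ hr] at hn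
    nlinarith
  refine ⟨(⌊x * q M n⌋ : ℤ) / q M n, ?_, ?_⟩
  · rw [Metric.mem_ball, Real.dist_eq]
    have a1 := Int.floor_le (x * q M n)
    have a2 := Int.lt_floor_add_one (x * q M n)
    have a3 : ((⌊x * q M n⌋ : ℤ) : ℝ) / q M n ≤ x := by
      rw [div_le_iff₀ hqn]; exact a1
    have a4 : x < ((⌊x * q M n⌋ : ℤ) : ℝ) / q M n + 1 / q M n := by
      rw [← add_div, lt_div_iff₀ hqn]; exact a2
    rw [abs_lt]
    constructor <;> linarith
  · intro h
    have := h n ⌊x * q M n⌋
    rw [sub_self, abs_zero] at this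
    have h3 : (0 : ℝ) < 1 / q M (n + 1) := by have := q_pos' hM (n + 1); positivity
    linarith

/-- differences of digit sequences which are far apart at every digit lie in `away` -/
theorem sub_mem_away (hM : ∀ k, 2 ≤ M k) {t b : ℕ → ℕ} (ht : ∀ k, t k < M k)
    (hb : ∀ k, b k < M k)
    (h1 : ∀ k, t k + 2 ≤ b k ∨ b k + 2 ≤ t k)
    (h2 : ∀ k, b k + 2 ≤ M k + t k) (h3 : ∀ k, t k + 2 ≤ M k + b k) :
    D M t - D M b ∈ away M := by
  intro k p
  obtain ⟨p1, hp1⟩ := exists_int hM t k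
  obtain ⟨p2, hp2⟩ := exists_int hM b k
  have hq := q_pos' hM k
  have hq1 := q_pos' hM (k + 1)
  have hMk : (2 : ℝ) ≤ M k := by exact_mod_cast hM k
  have e1 : D M t - D M b - p / q M k =
      ((p1 - p2 - p : ℤ) : ℝ) / q M k + (T M t k - T M b k) := by
    rw [D_split hM ht k, D_split hM hb k, hp1, hp2]
    push_cast
    ring
  have e2 : T M t k - T M b k =
      ((t k : ℝ) - b k) / q M (k + 1) + (T M t (k + 1) - T M b (k + 1)) := by
    rw [T_succ hM ht k, T_succ hM hb k, tm, tm]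
    ring
  set s : ℝ := (T M t (k + 1) - T M b (k + 1)) * q M (k + 1) with hs
  have hs1 : |s| ≤ 1 := by
    have a1 := T_nonneg (M := M) t (k + 1)
    have a2 := T_nonneg (M := M) b (k + 1)
    have a3 := T_le hM ht (k + 1)
    have a4 := T_le hM hb (k + 1)
    rw [hs, abs_le]
    have b3 : T M t (k + 1) * q M (k + 1) ≤ 1 := by
      rw [le_div_iff₀ hq1] at a3; exact a3
    have b4 : T M b (k + 1) * q M (k + 1) ≤ 1 := by
      rw [le_div_iff₀ hq1] at a4; exact a4
    have b1 : 0 ≤ T M t (k + 1) * q M (k + 1) := by positivity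
    have b2 : 0 ≤ T M b (k + 1) * q M (k + 1) := by positivity
    constructor <;> nlinarith
  set z : ℤ := (p1 - p2 - p : ℤ) with hz
  have e3 : D M t - D M b - p / q M k =
      ((z : ℝ) * M k + ((t k : ℝ) - b k) + s) / q M (k + 1) := by
    rw [e1, e2, hs]
    have hq1' := q_succ_real (M := M) k
    have hMk0 : (M k : ℝ) ≠ 0 := by linarith
    rw [hq1']
    field_simp
    ring
  rw [e3, abs_div, abs_of_pos hq1]
  rw [div_le_div_iff_of_pos_right hq1]
  -- integer part at least two away from zero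
  have key : (2 : ℝ) ≤ |(z : ℝ) * M k + ((t k : ℝ) - b k)| := by
    have : (2 : ℤ) ≤ |z * M k + ((t k : ℤ) - b k)| := by
      have ht' : (t k : ℤ) < M k := by exact_mod_cast ht k
      have hb' : (b k : ℤ) < M k := by exact_mod_cast hb k
      have h1' : (t k : ℤ) + 2 ≤ b k ∨ (b k : ℤ) + 2 ≤ t k := by
        rcases h1 k with h | h
        · left; exact_mod_cast h
        · right; exact_mod_cast h
      have h2' : (b k : ℤ) + 2 ≤ M k + t k := by exact_mod_cast h2 k
      have h3' : (t k : ℤ) + 2 ≤ M k + b k := by exact_mod_cast h3 k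
      have ht0 : (0 : ℤ) ≤ t k := by positivity
      have hb0 : (0 : ℤ) ≤ b k := by positivity
      rcases lt_trichotomy z 0 with hz0 | hz0 | hz0
      · have : z * M k ≤ -1 * M k := by
          apply mul_le_mul_of_nonneg_right (by omega) (by positivity)
        rw [abs_of_nonpos (by linarith)]
        linarith
      · rw [hz0, zero_mul, zero_add]
        rcases h1' with h | h
        · rw [abs_of_nonpos (by linarith)]; linarith
        · rw [abs_of_nonneg (by linarith)]; linarith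
      · have : 1 * (M k : ℤ) ≤ z * M k := by
          apply mul_le_mul_of_nonneg_right (by omega) (by positivity)
        rw [abs_of_nonneg (by linarith)]
        linarith
    have h' : ((2 : ℤ) : ℝ) ≤ ((|z * M k + ((t k : ℤ) - b k)| : ℤ) : ℝ) := by exact_mod_cast this
    push_cast at h'
    exact h'
  have tri := abs_sub_abs_le_abs_sub ((z : ℝ) * M k + ((t k : ℝ) - b k)) (-s)
  rw [sub_neg_eq_add, abs_neg] at tri
  linarith

end H995SN
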