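import Pool.Agent.H995R3.SN.Chain

set_option linter.deprecated false

open Set Filter Cardinal

namespace H995SN

theorem aleph0_le_cofSN : ℵ₀ ≤ cofSN :=
  (aleph0_le_aleph 1).trans (aleph_one_le_nonSN.trans nonSN_le_cofSN)

/-- If `cof(SN) < 𝔟` then Borel images of products of SMZ sets are SMZ. -/
theorem image2_borel' (hb : cofSN < bNum) {ψ : ℝ × ℝ → ℝ} (hψ : Measurable ψ) {X Y : Set ℝ}
    (hX : SMZ X) (hY : SMZ Y) : SMZ (ψ '' (X ×ˢ Y)) := by
  classical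
  by_contra hc
  obtain ⟨Z, hZ, hZc, hZn⟩ := exists_small_subset hc
  choose! w hw using fun z (hz : z ∈ Z) => hZ hz
  let U : Set ℝ := (fun z => (w z).1) '' Z
  let V : Set ℝ := (fun z => (w z).2) '' Z
  have hU1 : #U ≤ cofSN := mk_image_le.trans hZc
  have hV1 : #V ≤ cofSN := mk_image_le.trans hZc
  have hUX : U ⊆ X := by
    rintro _ ⟨z, hz, rfl⟩
    exact (hw z hz).1.1
  have hVY : V ⊆ Y := by
    rintro _ ⟨z, hz, rfl⟩
    exact (hw z hz).1.2
  have hU : SM U := smz_iff.1 (hX.mono hUX)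
  have hV : SM V := smz_iff.1 (hY.mono hVY)
  have hUV : SM (U ×ˢ V) := hU.prod hV (hU1.trans_lt hb)
  have hcard : #(U ×ˢ V : Set (ℝ × ℝ)) < bNum := by
    rw [mk_setProd]
    refine lt_of_le_of_lt (mul_le_mul' hU1 hV1) ?_
    rw [mul_eq_self aleph0_le_cofSN]
    exact hb
  have himg : SM (ψ '' (U ×ˢ V)) := hUV.image_borel hcard hψ
  apply hZn
  refine (smz_iff.2 himg).mono ?_
  intro z hz
  refine ⟨w z, ⟨⟨z, hz, rfl⟩, ⟨z, hz, rfl⟩⟩, (hw z hz).2⟩

theorem image_borel' (hb : cofSN < bNum) {ψ : ℝ → ℝ} (hψ : Measurable ψ) {X : Set ℝ}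
    (hX : SMZ X) : SMZ (ψ '' X) := by
  have h := image2_borel' hb (ψ := fun p => ψ p.1) (hψ.comp measurable_fst) hX hX
  refine h.mono ?_
  rintro _ ⟨x, hx, rfl⟩
  exact ⟨(x, x), ⟨hx, hx⟩, rfl⟩

theorem smz_stepF' (hb : cofSN < bNum) {X : Set ℝ} (hX : SMZ X) : SMZ (stepF X) := by
  unfold stepF
  refine ((hX.union (SMZ.countable (by simp))).union ?_).union ?_
  · exact (image2_borel' hb (by fun_prop) hX hX).union (image2_borel' hb (by fun_prop) hX hX)
  · exact (image_borel' hb (by fun_prop) hX).union (image_borel' hb (by fun_prop) hX)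

theorem smz_closure' (hb : cofSN < bNum) {X : Set ℝ} (hX : SMZ X) :
    SMZ (Subfield.closure X : Set ℝ) := by
  have hit : ∀ n, SMZ (iterF X n) := by
    intro n
    induction n with
    | zero => exact hX
    | succ n ih => exact smz_stepF' hb ih
  have hU : SMZ (⋃ n, iterF X n) := SMZ.iUnion hit
  refine hU.mono ?_
  have two : ∀ {x y : ℝ}, x ∈ (⋃ n, iterF X n) → y ∈ (⋃ n, iterF X n) →
      ∃ n, x ∈ iterF X n ∧ y ∈ iterF X n := by
    intro x y hx hy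
    obtain ⟨n, hn⟩ := mem_iUnion.1 hx
    obtain ⟨m, hm⟩ := mem_iUnion.1 hy
    exact ⟨max n m, iterF_mono X (le_max_left _ _) hn, iterF_mono X (le_max_right _ _) hm⟩
  let K : Subfield ℝ :=
    { carrier := ⋃ n, iterF X n
      mul_mem' := by
        intro x y hx hy
        obtain ⟨n, h1, h2⟩ := two hx hy
        exact mem_iUnion.2 ⟨n + 1, Or.inl (Or.inr (Or.inr ⟨(x, y), ⟨h1, h2⟩, rfl⟩))⟩
      one_mem' := mem_iUnion.2 ⟨1, Or.inl (Or.inl (Or.inr (by simp)))⟩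
      add_mem' := by
        intro x y hx hy
        obtain ⟨n, h1, h2⟩ := two hx hy
        exact mem_iUnion.2 ⟨n + 1, Or.inl (Or.inr (Or.inl ⟨(x, y), ⟨h1, h2⟩, rfl⟩))⟩
      zero_mem' := mem_iUnion.2 ⟨1, Or.inl (Or.inl (Or.inr (by simp)))⟩
      neg_mem' := by
        intro x hx
        obtain ⟨n, h1⟩ := mem_iUnion.1 hx
        exact mem_iUnion.2 ⟨n + 1, Or.inr (Or.inl ⟨x, h1, rfl⟩)⟩
      inv_mem' := by
        intro x hx
        obtain ⟨n, h1⟩ := mem_iUnion.1 hx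
        exact mem_iUnion.2 ⟨n + 1, Or.inr (Or.inr ⟨x, h1, rfl⟩)⟩ }
  have hle : Subfield.closure X ≤ K := by
    rw [Subfield.closure_le]
    exact fun x hx => mem_iUnion.2 ⟨0, hx⟩
  exact hle

theorem smz_Ecl' (hb : cofSN < bNum) {c : ℝ → ℕ → ℝ} (hcm : Measurable c) {X : Set ℝ}
    (hX : SMZ X) : SMZ (Ecl c X) := by
  classical
  by_contra hc
  obtain ⟨Y, hYX, hYc, hYn⟩ := exists_small_subset hc
  have hY1 : #Y < bNum := hYc.trans_lt hb
  apply hYn
  rw [smz_iff]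
  intro ε₀ hε₀
  obtain ⟨e0, he01, he02⟩ := exists_anti ε₀ hε₀
  have hle0 : ∀ m n, m ≤ n → e0 (Nat.pair n n) ≤ ε₀ (Nat.pair m n) := by
    intro m n hmn
    apply he02
    rcases hmn.lt_or_eq with h | h
    · exact (Nat.pair_lt_pair_left n h).le
    · rw [h]
  -- the codes
  choose! y hyX hyN using fun x (hx : x ∈ Y) =>
    hYX hx (fun n => e0 (Nat.pair n n) / 2) (fun n => by have := he01 (Nat.pair n n); positivity)
  choose! f hf1 hf2 using hyN
  have hX'c : #(y '' Y) < bNum := lt_of_le_of_lt mk_image_le hY1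
  obtain ⟨C, hC1, hC2, hC3⟩ := compact_split hX'c hcm
  have hBf : #((fun x => f x) '' Y) < bNum := lt_of_le_of_lt mk_image_le hY1
  obtain ⟨h, hh⟩ := bNum_spec_lt hBf
  choose blk hblk1 hblk2 using exists_block h
  have key : ∀ m, ∃ D : ℕ → ℝ, ∀ x ∈ Y, y x ∈ C m → ∃ n, |x - D n| ≤ ε₀ (Nat.pair m n) := by
    intro m
    have hunif : ∀ n, UniformContinuousOn (fun z => c z n) (C m) := fun n =>
      (hC2 m).uniformContinuousOn_of_continuous
        ((continuous_apply n).comp_continuousOn (hC1 m))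
    have hδ : ∀ n, ∃ δ > 0, ∀ z ∈ C m, ∀ z' ∈ C m, |z - z'| < δ →
        |c z n - c z' n| < ε₀ (Nat.pair m n) / 2 := by
      intro n
      obtain ⟨δ, h1, h2⟩ := Metric.uniformContinuousOn_iff.1 (hunif n) (ε₀ (Nat.pair m n) / 2)
        (by have := hε₀ (Nat.pair m n); positivity)
      exact ⟨δ, h1, fun z hz z' hz' hd => h2 z hz z' hz' hd⟩
    choose δ hδ1 hδ2 using hδ
    obtain ⟨e, he1, he2⟩ := exists_anti δ hδ1
    let X' : Set ℝ := y '' {x | x ∈ Y ∧ y x ∈ C m}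
    have hX'X : X' ⊆ X := by
      rintro _ ⟨x, hx, rfl⟩
      exact hyX x hx.1
    have hX'C : X' ⊆ C m := by
      rintro _ ⟨x, hx, rfl⟩
      exact hx.2
    have hX' : SM X' := smz_iff.1 (hX.mono hX'X)
    obtain ⟨d, hd⟩ := hX'.io (fun k => e (pos h (k + 1)) / 3)
      (fun k => by have := he1 (pos h (k + 1)); positivity)
    refine ⟨fun n => if hex : ∃ z ∈ X', z ∈ Metric.closedBall (d (blk n))
      (e (pos h (blk n + 1)) / 3) then c hex.choose n else 0, ?_⟩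
    intro x hx hxC
    have hyX' : y x ∈ X' := ⟨x, ⟨hx, hxC⟩, rfl⟩
    obtain ⟨N, hN⟩ := eventually_atTop.1 (hh _ ⟨x, hx, rfl⟩)
    obtain ⟨k, hk1, hk2⟩ := hd (y x) hyX' (max N m)
    have hkp : k ≤ pos h k := le_pos_self h k
    have h1 : f x (pos h k) ≤ h (pos h k) :=
      hN _ (((le_max_left _ _).trans hk1).trans hkp)
    have h2 : h (pos h k) < pos h (k + 1) := le_pos h le_rfl
    have h3 : pos h k ≤ f x (pos h k) := hf1 x hx _
    have hb' : blk (f x (pos h k)) = k :=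
      block_unique (hblk1 _) (hblk2 _) h3 (lt_of_le_of_lt h1 h2)
    refine ⟨f x (pos h k), ?_⟩
    have hex : ∃ z ∈ X', z ∈ Metric.closedBall (d (blk (f x (pos h k))))
        (e (pos h (blk (f x (pos h k)) + 1)) / 3) := by
      rw [hb']
      exact ⟨y x, hyX', hk2⟩
    simp only [dif_pos hex]
    have hs := hex.choose_spec
    set z := hex.choose with hz
    rw [hb'] at hs
    have hdist : |y x - z| < δ (f x (pos h k)) := by
      have a1 : |y x - d k| ≤ e (pos h (k + 1)) / 3 := hk2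
      have a2 : |z - d k| ≤ e (pos h (k + 1)) / 3 := hs.2
      have a3 : e (pos h (k + 1)) ≤ δ (f x (pos h k)) := he2 _ _ (by omega)
      have a4 := he1 (pos h (k + 1))
      have a5 : |y x - z| ≤ |y x - d k| + |z - d k| := by
        have := abs_sub_le (y x) (d k) z
        rwa [abs_sub_comm (d k) z] at this
      linarith
    have b1 := hδ2 (f x (pos h k)) (y x) hxC z (hX'C hs.1) hdist
    have b2 : |x - c (y x) (f x (pos h k))| <
        e0 (Nat.pair (f x (pos h k)) (f x (pos h k))) / 2 := hf2 x hx (pos h k)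
    have b3 := hle0 m (f x (pos h k)) (by have := (le_max_right N m).trans hk1; omega)
    have b4 := abs_sub_le x (c (y x) (f x (pos h k))) (c z (f x (pos h k)))
    linarith
  choose D hD using key
  refine ⟨fun p => D p.unpair.1 p.unpair.2, fun x hx => ?_⟩
  obtain ⟨m, hm⟩ := mem_iUnion.1 (hC3 ⟨x, hx, rfl⟩)
  obtain ⟨n, hn⟩ := hD m x hx hm
  refine mem_iUnion.2 ⟨Nat.pair m n, ?_⟩
  rw [Metric.mem_closedBall, Real.dist_eq]
  simpa using hn


/-- there is a dominating family all of whose Borel images are SMZ -/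
theorem exists_dominating' (hb : cofSN < bNum) : ∃ D : Set (ℕ → ℕ),
    (∀ f, ∃ g ∈ D, EvDom f g) ∧ ∀ ψ : (ℕ → ℕ) → ℝ, Measurable ψ → SMZ (ψ '' D) := by
  obtain ⟨F, hF, h1, h2⟩ := cofSN_spec
  let θ : (ℕ → ℕ) ≃ᵐ ℝ := PolishSpace.measurableEquivOfNotCountable
    (not_countable_iff.2 uncountable_baire) (by rw [not_countable_iff]; infer_instance)
  have hdom : ∃ A : F, ∀ f, ∃ g ∈ θ ⁻¹' (A : Set ℝ), EvDom f g := by
    by_contra hc
    push Not at hc
    choose f hf using hc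
    have hcard : #(range f) < bNum := lt_of_le_of_lt (mk_range_le.trans_eq hF) hb
    obtain ⟨h, hh⟩ := bNum_spec_lt hcard
    obtain ⟨A, hA, ha⟩ := h2 {θ h} (SMZ.countable (countable_singleton _))
    exact hf ⟨A, hA⟩ h (ha rfl) (hh _ ⟨_, rfl⟩)
  obtain ⟨A, ha⟩ := hdom
  refine ⟨θ ⁻¹' (A : Set ℝ), ha, fun ψ hψ => ?_⟩
  have := image_borel' hb (hψ.comp θ.symm.measurable) (h1 A A.2)
  refine this.mono ?_
  rintro _ ⟨x, hx, rfl⟩
  exact ⟨θ x, hx, by simp⟩

theorem family_iff {c : ℝ → ℕ → ℝ} (hcm : Measurable c) (hcs : Function.Surjective c) :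
    cofSN < bNum ↔ ∃ 𝒳 : Set (Set ℝ), #𝒳 < bNum ∧ (∀ A ∈ 𝒳, SMZ A) ∧
      (∀ x : ℝ, ∃ A ∈ 𝒳, x ∈ A) ∧ ∀ A ∈ 𝒳, ∃ B ∈ 𝒳, Ecl c A ⊆ B := by
  constructor
  · intro hb
    obtain ⟨F, hF, h1, h2⟩ := cofSN_spec
    refine ⟨F, hF ▸ hb, h1, fun x => ?_, fun A hA => h2 _ (smz_Ecl' hb hcm (h1 A hA))⟩
    obtain ⟨A, hA, ha⟩ := h2 {x} (SMZ.countable (countable_singleton x))
    exact ⟨A, hA, ha rfl⟩
  · rintro ⟨F, hb, h1, hU, hE⟩
    refine lt_of_le_of_lt ?_ hb
    apply csInf_le'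
    refine ⟨F, rfl, h1, ?_⟩
    intro Y hY
    by_contra hno
    push Not at hno
    have hpt : ∀ A : F, ∃ x ∈ Y, x ∉ Ecl c (A : Set ℝ) := by
      intro A
      obtain ⟨B, hB, hAB⟩ := hE A A.2
      obtain ⟨x, hx, hxb⟩ := not_subset.1 (hno B hB)
      exact ⟨x, hx, fun h => hxb (hAB h)⟩
    choose x hxY hxE using hpt
    have hgap : ∀ A : F, ∃ g : ℕ → ℕ, ∀ y ∈ (A : Set ℝ), ∀ᶠ n in atTop,
        1 / ((g n : ℝ) + 1) ≤ |x A - c y n| := by
      intro A
      have := hxE A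
      simp only [Ecl, mem_setOf_eq] at this
      push Not at this
      obtain ⟨ε, hε, hεX⟩ := this
      choose g hg using fun n => exists_nat_one_div_lt (hε n)
      refine ⟨g, fun y hy => ?_⟩
      obtain ⟨N, hN⟩ := hεX y hy
      filter_upwards [eventually_ge_atTop N] with n hn
      exact (hg n).le.trans (hN n hn)
    choose g hg using hgap
    have hcard : #(range g) < bNum := lt_of_le_of_lt mk_range_le hb
    obtain ⟨h, hh⟩ := bNum_spec_lt hcard
    obtain ⟨q, hq⟩ := (smz_iff.1 hY).io (fun n => 1 / ((h n : ℝ) + 1) / 2)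
      (fun n => by positivity)
    obtain ⟨y, rfl⟩ := hcs q
    obtain ⟨A, hA, ha⟩ := hU y
    obtain ⟨N, hN⟩ := eventually_atTop.1 ((hg ⟨A, hA⟩ y ha).and (hh (g ⟨A, hA⟩) ⟨_, rfl⟩))
    obtain ⟨n, hn, hmem⟩ := hq (x ⟨A, hA⟩) (hxY _) N
    obtain ⟨h3, h4⟩ := hN n hn
    rw [Metric.mem_closedBall, Real.dist_eq] at hmem
    have h5 : (1 : ℝ) / ((h n : ℝ) + 1) ≤ 1 / ((g ⟨A, hA⟩ n : ℝ) + 1) := by
      apply one_div_le_one_div_of_le (by positivity)
      have : (g ⟨A, hA⟩ n : ℝ) ≤ h n := by exact_mod_cast h4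
      linarith
    have h6 : (0 : ℝ) < 1 / ((h n : ℝ) + 1) := by positivity
    linarith

end H995SN
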