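import Pool.Agent.H995R3.SN.MeagerAdd

set_option linter.deprecated false

open Set Filter Cardinal Pointwise

namespace H995SN

/-- From a set of size `non(SN)` which is not SMZ we get a family of bounded sequences such that
every `v` is different from a member of the family at every place. -/
theorem exists_family : ∃ (N : ℕ → ℕ) (Γ : Type) (z : Γ → ℕ → ℕ), #Γ ≤ nonSN ∧
    (∀ k, 1 ≤ N k) ∧ (∀ γ k, z γ k < N k) ∧ ∀ v : ℕ → ℕ, ∃ γ, ∀ k, z γ k ≠ v k := by
  classical
  have hne : {κ | ∃ X : Set ℝ, #X = κ ∧ ¬ SMZ X}.Nonempty := ⟨_, Set.univ, rfl, not_smz_univ⟩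
  obtain ⟨Z, hZc, hZ⟩ := csInf_mem hne
  change #Z = nonSN at hZc
  obtain ⟨m, hm⟩ : ∃ m : ℤ, ¬ SMZ (Z ∩ Ico (m : ℝ) (m + 1)) := by
    by_contra hc
    push Not at hc
    apply hZ
    have h1 : SMZ (⋃ m ∈ (Set.univ : Set ℤ), (Z ∩ Ico (m : ℝ) (m + 1))) :=
      SMZ.biUnion (countable_univ) fun m _ => hc m
    refine h1.mono fun x hx => ?_
    refine mem_biUnion (mem_univ ⌊x⌋) ⟨hx, Int.floor_le x, Int.lt_floor_add_one x⟩
  have hm' : ∃ ε : ℕ → ℝ, (∀ n, 0 < ε n) ∧ ∀ c : ℕ → ℝ,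
      ¬ (Z ∩ Ico (m : ℝ) (m + 1)) ⊆ ⋃ n, Metric.closedBall (c n) (ε n) := by
    by_contra hc
    push Not at hc
    exact hm (smz_iff.2 hc)
  obtain ⟨ε, hε, hno⟩ := hm'
  have hR : ∀ k Q : ℕ, ∃ R : ℕ, 1 ≤ R ∧ ∀ p < Q, 1 / ((Q : ℝ) * R) ≤ ε (Nat.pair k p) := by
    intro k Q
    obtain ⟨e, he1, he2⟩ := exists_anti ε hε
    obtain ⟨R, hR⟩ := exists_nat_one_div_lt (he1 (Nat.pair k Q))
    refine ⟨R + 1, by omega, fun p hp => ?_⟩
    have h1 : e (Nat.pair k Q) ≤ ε (Nat.pair k p) :=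
      he2 _ _ (Nat.pair_lt_pair_right k hp).le
    have hQ : (1 : ℝ) ≤ Q := by
      have : 1 ≤ Q := by omega
      exact_mod_cast this
    have h2 : 1 / ((Q : ℝ) * ((R + 1 : ℕ) : ℝ)) ≤ 1 / ((R : ℝ) + 1) := by
      apply one_div_le_one_div_of_le (by positivity)
      push_cast
      nlinarith [show (0 : ℝ) ≤ R by positivity]
    linarith
  choose R hR1 hR2 using hR
  obtain ⟨qq, hq0, hqs⟩ : ∃ qq : ℕ → ℕ, qq 0 = 1 ∧ ∀ k, qq (k + 1) = qq k * R k (qq k) :=
    ⟨fun k => Nat.rec 1 (fun k Q => Q * R k Q) k, rfl, fun _ => rfl⟩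
  have hqpos : ∀ k, 0 < qq k := by
    intro k
    induction k with
    | zero => simp [hq0]
    | succ k ih => rw [hqs]; exact Nat.mul_pos ih (hR1 _ _)
  let N : ℕ → ℕ := fun k => R k (qq k)
  let F : ℝ → ℕ → ℕ := fun x k => ⌊(qq k : ℝ) * (x - m)⌋₊
  refine ⟨N, (Z ∩ Ico (m : ℝ) (m + 1) : Set ℝ), fun x k => F x (k + 1) % N k, ?_, ?_, ?_, ?_⟩
  · exact (mk_le_mk_of_subset inter_subset_left).trans_eq hZc
  · exact fun k => hR1 _ _
  · exact fun x k => Nat.mod_lt _ (hR1 _ _)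
  · intro v
    by_contra hc
    push Not at hc
    apply hno (fun j => m + ((N j.unpair.1 * j.unpair.2 + v j.unpair.1 : ℕ) : ℝ) /
      qq (j.unpair.1 + 1))
    intro x hx
    obtain ⟨k, hk⟩ := hc ⟨x, hx⟩
    change F x (k + 1) % N k = v k at hk
    have hdm := Nat.div_add_mod (F x (k + 1)) (N k)
    rw [hk] at hdm
    set p := F x (k + 1) / N k with hp
    have hq1 : (0 : ℝ) < qq (k + 1) := by exact_mod_cast hqpos (k + 1)
    have hx0 : 0 ≤ x - m := by linarith [hx.2.1]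
    have hx1 : x - m < 1 := by linarith [hx.2.2]
    have a1 := Nat.floor_le (show 0 ≤ (qq (k + 1) : ℝ) * (x - m) by positivity)
    have a2 := Nat.lt_floor_add_one ((qq (k + 1) : ℝ) * (x - m))
    have hFlt : F x (k + 1) < qq (k + 1) := by
      have : ((F x (k + 1) : ℕ) : ℝ) < qq (k + 1) := by
        calc ((F x (k + 1) : ℕ) : ℝ) ≤ (qq (k + 1) : ℝ) * (x - m) := a1
          _ < qq (k + 1) := by nlinarith
      exact_mod_cast this
    have hplt : p < qq k := by
      apply Nat.div_lt_of_lt_mul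
      rw [mul_comm]
      show F x (k + 1) < qq k * R k (qq k)
      rw [← hqs]
      exact hFlt
    refine mem_iUnion.2 ⟨Nat.pair k p, ?_⟩
    rw [Metric.mem_closedBall, Real.dist_eq, Nat.unpair_pair]
    simp only
    rw [hdm]
    have hε' := hR2 k (qq k) p hplt
    have e1 : (1 : ℝ) / qq (k + 1) ≤ ε (Nat.pair k p) := by
      rw [hqs]; push_cast; exact hε'
    have a3 : (F x (k + 1) : ℝ) / qq (k + 1) ≤ x - m := by
      rw [div_le_iff₀ hq1, mul_comm]; exact a1
    have a4 : x - m < (F x (k + 1) : ℝ) / qq (k + 1) + 1 / qq (k + 1) := by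
      rw [← add_div, lt_div_iff₀ hq1, mul_comm]; exact a2
    rw [abs_le]
    constructor <;> linarith

/-- the cover of the sequences with long constant intervals -/
theorem digit_cover {M N : ℕ → ℕ} (hMN : ∀ k, M k = 4 * N k + 8) (hN : ∀ k, 1 ≤ N k)
    (ε : ℕ → ℝ) (hε : ∀ n, 0 < ε n) :
    ∃ (l : ℕ → ℝ) (h : ℕ → ℕ), ∀ (c : ℕ → ℕ) (n : ℕ), (∀ k, c k < N k) →
      (∀ i, n ≤ i → i < h n → c i = 0) → ∃ j, |D M (enc c) - l j| ≤ ε j := by
  classical
  have hM : ∀ k, 2 ≤ M k := fun k => by rw [hMN]; omega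
  have hex : ∀ j, ∃ H : ℕ, 1 / (q M H : ℝ) ≤ ε j := by
    intro j
    obtain ⟨n, hn⟩ := exists_nat_gt (1 / ε j)
    refine ⟨n, ?_⟩
    have hqn := q_pos' hM n
    have h2 : (n : ℝ) < q M n := by exact_mod_cast q_ge hM n
    rw [div_lt_iff₀ (hε j)] at hn
    rw [div_le_iff₀ hqn]
    nlinarith [hε j]
  choose H hH using hex
  let ext : List ℕ → ℕ → ℕ := fun v i => v.getD i 0
  let l : ℕ → ℝ := fun j => match (Encodable.decode j : Option (List ℕ)) with
    | some v => D M (enc (ext v))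
    | none => 0
  let h0 : ℕ → ℕ := fun n => max n
    ((Finset.univ : Finset ((i : Fin n) → Fin (N i))).sup
      (fun v => H (Encodable.encode (List.ofFn fun i => (v i : ℕ)))))
  refine ⟨l, h0, ?_⟩
  intro c n hcN hcn
  let v : (i : Fin n) → Fin (N i) := fun i => ⟨c i, hcN i⟩
  let L : List ℕ := List.ofFn fun i => (v i : ℕ)
  let j : ℕ := Encodable.encode L
  have hlj : l j = D M (enc (ext L)) := by
    simp only [l, j, Encodable.encodek]
  have hlen : L.length = n := List.length_ofFn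
  have hN1 : max n (H j) ≤ h0 n := by
    apply max_le_max le_rfl
    exact Finset.le_sup (f := fun v : (i : Fin n) → Fin (N i) =>
      H (Encodable.encode (List.ofFn fun i => (v i : ℕ)))) (Finset.mem_univ v)
  have hext_lt : ∀ i, i < n → ext L i = c i := by
    intro i hi
    show L.getD i 0 = c i
    rw [List.getD_eq_getElem _ _ (by rw [hlen]; exact hi)]
    simp [L, v]
  have hext_ge : ∀ i, n ≤ i → ext L i = 0 := by
    intro i hi
    show L.getD i 0 = 0
    exact List.getD_eq_default _ _ (by rw [hlen]; exact hi)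
  have hextN : ∀ i, ext L i < N i := by
    intro i
    by_cases hi : i < n
    · rw [hext_lt i hi]; exact hcN i
    · rw [hext_ge i (by omega)]; exact hN i
  have encM : ∀ c : ℕ → ℕ, (∀ k, c k < N k) → ∀ k, enc c k < M k := fun c hc k => by
    rw [hMN, enc]; have := hc k; omega
  have key := D_near hM (encM c hcN) (encM _ hextN) (n := max n (H j)) (fun i hi => by
    show 4 * (c i + 1) = 4 * (ext L i + 1)
    by_cases hin : i < n
    · rw [hext_lt i hin]
    · rw [hext_ge i (by omega), hcn i (by omega) (by omega)])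
  refine ⟨j, ?_⟩
  rw [hlj]
  refine key.trans (le_trans ?_ (hH j))
  have hqH := q_pos' hM (H j)
  apply one_div_le_one_div_of_le hqH
  have hmono : ∀ a b : ℕ, a ≤ b → q M a ≤ q M b := by
    intro a b hab
    exact Finset.prod_le_prod_of_subset_of_one_le' (Finset.range_mono hab)
      (fun i _ _ => by have := hM i; omega)
  exact_mod_cast hmono _ _ (le_max_right n (H j))


theorem sum_ge (d : ℕ → ℕ) {l m : ℕ} (h : l ≤ m) : d l ≤ ∑ i ∈ Finset.range (m + 1), d i :=
  Finset.single_le_sum (f := d) (fun _ _ => Nat.zero_le _) (Finset.mem_range.2 (by omega))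

def sm (d : ℕ → ℕ) (m : ℕ) : ℕ := ∑ i ∈ Finset.range (m + 1), d i

theorem sm_mono (d : ℕ → ℕ) : Monotone (sm d) := fun a b hab =>
  Finset.sum_le_sum_of_subset (Finset.range_mono (by omega))

theorem le_sm (d : ℕ → ℕ) {l m : ℕ} (h : l ≤ m) : d l ≤ sm d m := sum_ge d h

/-- end of the free part -/
def FF (d : ℕ → ℕ) (m : ℕ) : ℕ := m + sm d m + 1

theorem FF_mono (d : ℕ → ℕ) : Monotone (FF d) := fun a b hab => by
  have := sm_mono d hab
  unfold FF; omega

/-- starting points of the free parts -/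
def AA (d u : ℕ → ℕ) : ℕ → ℕ
  | 0 => 0
  | j + 1 => FF d (AA d u j) + sm u (FF d (AA d u j)) + 1

theorem AA_lt (d u : ℕ → ℕ) (j : ℕ) : FF d (AA d u j) < AA d u (j + 1) := by
  simp only [AA]; omega

theorem AA_strictMono (d u : ℕ → ℕ) : StrictMono (AA d u) := strictMono_nat_of_lt_succ fun j => by
  have := AA_lt d u j
  unfold FF at this
  omega

/-- the bound -/
def Phi (f d : ℕ → ℕ) (m : ℕ) : ℕ := sm f (FF d (sm f (FF d m)))

theorem exists_large {f d u : ℕ → ℕ} (h : ¬ EvDom u (Phi f d)) (n : ℕ) :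
    ∃ j ≥ n, sm f (FF d (AA d u j)) < AA d u (j + 1) := by
  by_contra hc
  push Not at hc
  apply h
  filter_upwards [eventually_ge_atTop (AA d u n)] with m hm
  obtain ⟨j, hj1, hj2⟩ := exists_blk (AA_strictMono d u) rfl m
  have hjn : n ≤ j := by
    by_contra hlt
    have := (AA_strictMono d u).monotone (show j + 1 ≤ n by omega)
    omega
  have e1 : u m ≤ sm u (FF d (AA d u (j + 1))) := by
    apply le_sm
    have : AA d u (j + 1) ≤ FF d (AA d u (j + 1)) := by unfold FF; omega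
    omega
  have e2 : sm u (FF d (AA d u (j + 1))) < AA d u (j + 2) := by
    show _ < FF d (AA d u (j + 1)) + sm u (FF d (AA d u (j + 1))) + 1
    omega
  have e3 : AA d u (j + 1 + 1) ≤ sm f (FF d (AA d u (j + 1))) := hc (j + 1) (by omega)
  have e4 : AA d u (j + 1) ≤ sm f (FF d (AA d u j)) := hc j hjn
  have e5 : sm f (FF d (AA d u j)) ≤ sm f (FF d m) := sm_mono f (FF_mono d hj1)
  have e6 : sm f (FF d (AA d u (j + 1))) ≤ sm f (FF d (sm f (FF d m))) :=
    sm_mono f (FF_mono d (e4.trans e5))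
  show u m ≤ sm f (FF d (sm f (FF d m)))
  have e2' : sm u (FF d (AA d u (j + 1))) < AA d u (j + 1 + 1) := e2
  omega

/-- If `non(SN) = 𝔡` then some SMZ set is not meager-additive. -/
theorem exists_smz_not_ma (hnd : nonSN = dNum) :
    ∃ (Y A : Set ℝ), SMZ Y ∧ IsClosed A ∧ interior A = ∅ ∧ ¬ IsMeagre (Y + A) := by
  classical
  obtain ⟨N, Γ, z, hΓ, hN, hzN, hz⟩ := exists_family
  obtain ⟨D₀, hD₀, hdom⟩ := csInf_mem dNum_nonempty
  change #D₀ = dNum at hD₀
  let M : ℕ → ℕ := fun k => 4 * N k + 8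
  have hMN : ∀ k, M k = 4 * N k + 8 := fun k => rfl
  have hM : ∀ k, 2 ≤ M k := fun k => by rw [hMN]; omega
  let ι := dNum.ord.ToType
  have hι : #ι = dNum := mk_ord_toType _
  have hIio : ∀ i : ι, #(Iio i) < dNum := fun i => mk_Iio_ord_toType i
  obtain ⟨e⟩ : Nonempty (ι ≃ D₀) := Cardinal.eq.1 (hι.trans hD₀.symm)
  let f : ι → ℕ → ℕ := fun i => (e i : ℕ → ℕ)
  -- bookkeeping
  have hcard : #(Γ × D₀) ≤ #ι := by
    rw [mk_prod, lift_id, lift_id, hι, hD₀]
    refine (mul_le_mul' (hΓ.trans_eq hnd) le_rfl).trans ?_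
    rw [mul_eq_self aleph0_le_dNum]
  obtain ⟨γ0, -⟩ := hz fun _ => 0
  obtain ⟨d0, hd0, -⟩ := hdom fun _ => 0
  have : Nonempty (Γ × D₀) := ⟨(γ0, ⟨d0, hd0⟩)⟩
  obtain ⟨emb⟩ := (Cardinal.le_def _ _).1 hcard
  obtain ⟨s, hs⟩ : ∃ s : ι → Γ × D₀, Function.Surjective s :=
    ⟨Function.invFun emb, Function.invFun_surjective emb.injective⟩
  let d : ι → ℕ → ℕ := fun i => ((s i).2 : ℕ → ℕ)
  have hex : ∀ i, ∃ u : ℕ → ℕ, ∀ j, j < i → ¬ EvDom u (Phi (f j) (d i)) := by
    intro i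
    have hlt : #((fun j => Phi (f j) (d i)) '' Iio i) < dNum :=
      lt_of_le_of_lt mk_image_le (hIio i)
    obtain ⟨u, hu⟩ := dNum_spec_lt hlt
    exact ⟨u, fun j hj => hu _ ⟨j, hj, rfl⟩⟩
  choose u hu using hex
  let c : ι → ℕ → ℕ := fun i k =>
    if ∃ j, AA (d i) (u i) j ≤ k ∧ k < FF (d i) (AA (d i) (u i) j) then z (s i).1 k else 0
  have hcN : ∀ i k, c i k < N k := by
    intro i k
    by_cases h : ∃ j, AA (d i) (u i) j ≤ k ∧ k < FF (d i) (AA (d i) (u i) j)
    · simp only [c, if_pos h]; exact hzN _ _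
    · simp only [c, if_neg h]; exact hN k
  let Y : Set ℝ := range fun i => D M (enc (c i))
  refine ⟨Y, away M, ?_, isClosed_away, interior_away hM, ?_⟩
  · -- Y is SMZ
    rw [smz_iff]
    intro ε hε
    obtain ⟨l, h, hcov⟩ := digit_cover hMN hN (fun j => ε (2 * j)) (fun j => hε _)
    obtain ⟨w, hw, hle⟩ := hdom h
    set i0 : ι := e.symm ⟨w, hw⟩ with hi0
    have hfw : f i0 = w := by simp [f, hi0]
    have hB : #(Iic i0) < dNum := by
      rw [← Iio_insert]
      refine lt_of_le_of_lt mk_insert_le ?_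
      exact add_lt_of_lt aleph0_le_dNum (hIio _) (one_lt_aleph0.trans_le aleph0_le_dNum)
    have hBS : SM ((fun i => D M (enc (c i))) '' Iic i0) :=
      smz_iff.1 (smz_of_lt (by rw [hnd]; exact lt_of_le_of_lt mk_image_le hB))
    obtain ⟨b, hb⟩ := hBS (fun j => ε (2 * j + 1)) (fun j => hε _)
    refine ⟨fun n => if n % 2 = 0 then l (n / 2) else b (n / 2), ?_⟩
    rintro _ ⟨i, rfl⟩
    show D M (enc (c i)) ∈ _
    by_cases hi : i ≤ i0
    · obtain ⟨j, hj⟩ := mem_iUnion.1 (hb ⟨i, hi, rfl⟩)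
      refine mem_iUnion.2 ⟨2 * j + 1, ?_⟩
      have e1 : ¬ ((2 * j + 1) % 2 = 0) := by omega
      have e2 : (2 * j + 1) / 2 = j := by omega
      simp only [e1, if_false, e2]
      exact hj
    · have hlt : i0 < i := not_le.1 hi
      obtain ⟨T0, hT0⟩ := eventually_atTop.1 hle
      obtain ⟨j, hj1, hj2⟩ := exists_large (hu i i0 hlt) T0
      set n := FF (d i) (AA (d i) (u i) j) with hn
      have hjn : T0 ≤ n := by
        have : j ≤ AA (d i) (u i) j := (AA_strictMono (d i) (u i)).id_le j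
        have : AA (d i) (u i) j ≤ n := by rw [hn]; unfold FF; omega
        omega
      have hhn : h n < AA (d i) (u i) (j + 1) := by
        have h1 : h n ≤ w n := hT0 n hjn
        have h2 : w n ≤ sm (f i0) n := by rw [hfw]; exact le_sm w le_rfl
        omega
      obtain ⟨j', hj'⟩ := hcov (c i) n (hcN i) (by
        intro k hk1 hk2
        have hnot : ¬ ∃ j, AA (d i) (u i) j ≤ k ∧ k < FF (d i) (AA (d i) (u i) j) := by
          rintro ⟨j₂, h1, h2⟩
          rcases Nat.lt_or_ge j j₂ with h | h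
          · have := (AA_strictMono (d i) (u i)).monotone (show j + 1 ≤ j₂ from h)
            omega
          · have := FF_mono (d i) ((AA_strictMono (d i) (u i)).monotone h)
            omega
        simp only [c, if_neg hnot])
      refine mem_iUnion.2 ⟨2 * j', ?_⟩
      have e1 : 2 * j' % 2 = 0 := by omega
      have e2 : 2 * j' / 2 = j' := by omega
      simp only [e1, if_true, e2]
      rw [Metric.mem_closedBall, Real.dist_eq]
      exact hj'
  · apply not_meagre_of hMN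
    intro g v hg _
    obtain ⟨γ, hγ⟩ := hz v
    obtain ⟨w, hw, hle⟩ := hdom (fun m => g (m + 1))
    obtain ⟨i, hi⟩ := hs (γ, ⟨w, hw⟩)
    have hdi : d i = w := by simp only [d, hi]
    refine ⟨c i, hcN i, ⟨i, rfl⟩, fun m => ?_⟩
    obtain ⟨T0, hT0⟩ := eventually_atTop.1 hle
    let j := max m T0
    let n := AA (d i) (u i) j
    have hjn : j ≤ n := (AA_strictMono (d i) (u i)).id_le j
    refine ⟨n, (le_max_left m T0).trans hjn, fun k hk1 hk2 => ?_⟩
    have h1 : g (n + 1) ≤ w n := hT0 n ((le_max_right m T0).trans hjn)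
    have h2 : w n ≤ sm (d i) n := by rw [hdi]; exact le_sm w le_rfl
    have h3 : n ≤ g n := hg.id_le n
    have hyes : ∃ j, AA (d i) (u i) j ≤ k ∧ k < FF (d i) (AA (d i) (u i) j) := by
      refine ⟨j, h3.trans hk1, ?_⟩
      show k < n + sm (d i) n + 1
      omega
    simp only [c, if_pos hyes]
    rw [hi]
    exact hγ k

end H995SN
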