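import Pool.Agent.H995R3.SN.Basic

set_option linter.deprecated false

open Set Filter Cardinal

namespace H995SN

/-- eventual domination -/
def EvDom (f g : ℕ → ℕ) : Prop := ∀ᶠ n in atTop, f n ≤ g n

theorem EvDom.trans {f g h : ℕ → ℕ} (h1 : EvDom f g) (h2 : EvDom g h) : EvDom f h :=
  h1.mp (h2.mono fun _ a b => b.trans a)

theorem EvDom.refl (f : ℕ → ℕ) : EvDom f f := Eventually.of_forall fun _ => le_rfl

noncomputable def cofSN : Cardinal :=
  sInf {κ | ∃ F : Set (Set ℝ), #F = κ ∧ (∀ X ∈ F, SMZ X) ∧ ∀ X, SMZ X → ∃ Y ∈ F, X ⊆ Y}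

noncomputable def nonSN : Cardinal :=
  sInf {κ | ∃ X : Set ℝ, #X = κ ∧ ¬ SMZ X}

noncomputable def bNum : Cardinal :=
  sInf {κ | ∃ B : Set (ℕ → ℕ), #B = κ ∧ ¬ ∃ g, ∀ f ∈ B, EvDom f g}

noncomputable def dNum : Cardinal :=
  sInf {κ | ∃ D : Set (ℕ → ℕ), #D = κ ∧ ∀ f, ∃ g ∈ D, EvDom f g}

theorem not_smz_univ : ¬ SMZ univ := fun h => not_smz_G (fun _ => 0) (h.mono (subset_univ _))

theorem smz_of_lt {X : Set ℝ} (h : #X < nonSN) : SMZ X := by
  by_contra hX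
  exact absurd h (not_lt.2 (csInf_le' ⟨X, rfl, hX⟩))

theorem cofSN_spec : ∃ F : Set (Set ℝ), #F = cofSN ∧ (∀ X ∈ F, SMZ X) ∧
    ∀ X, SMZ X → ∃ Y ∈ F, X ⊆ Y := by
  have hne : {κ | ∃ F : Set (Set ℝ), #F = κ ∧ (∀ X ∈ F, SMZ X) ∧
      ∀ X, SMZ X → ∃ Y ∈ F, X ⊆ Y}.Nonempty :=
    ⟨_, {X | SMZ X}, rfl, fun _ h => h, fun X h => ⟨X, h, Subset.rfl⟩⟩
  exact csInf_mem hne

theorem nonSN_le_cofSN : nonSN ≤ cofSN := by
  obtain ⟨F, hF, h1, h2⟩ := cofSN_spec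
  have hex : ∀ X : F, ∃ x : ℝ, x ∉ (X : Set ℝ) := by
    intro X
    by_contra hc
    push Not at hc
    exact not_smz_univ ((h1 X X.2).mono fun x _ => hc x)
  choose x hx using hex
  have hnot : ¬ SMZ (range x) := by
    intro hs
    obtain ⟨Y, hY, hsub⟩ := h2 _ hs
    exact hx ⟨Y, hY⟩ (hsub ⟨⟨Y, hY⟩, rfl⟩)
  calc nonSN ≤ #(range x) := csInf_le' ⟨range x, rfl, hnot⟩
    _ ≤ #F := mk_range_le
    _ = cofSN := hF

theorem aleph_one_le_nonSN : ℵ₁ ≤ nonSN := by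
  apply le_csInf
  · exact ⟨_, univ, rfl, not_smz_univ⟩
  · rintro κ ⟨X, rfl, hX⟩
    by_contra hc
    push Not at hc
    have : #X ≤ ℵ₀ := by
      rw [← Order.lt_succ_iff, succ_aleph0]; exact hc
    exact hX (SMZ.countable (le_aleph0_iff_set_countable.1 this))

/-- the diagonalisation -/
theorem diag {ι : Type} (g : ι → ℕ → ℕ)
    (hg : ∀ h : ℕ → ℕ, #{i : ι | EvDom (g i) h} < nonSN)
    (X : ι → Set ℝ) (hX : ∀ i, SMZ (X i)) :
    ∃ Y : Set ℝ, SMZ Y ∧ ∀ i, ¬ Y ⊆ X i := by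
  classical
  have hex : ∀ i, ∃ d ∈ Supp (g i), phi d ∉ X i := by
    intro i
    by_contra hc
    push Not at hc
    apply not_smz_G (g i)
    refine (hX i).mono ?_
    rintro _ ⟨d, hd, rfl⟩
    exact hc d hd
  choose d hd hdX using hex
  refine ⟨range fun i => phi (d i), ?_, fun i hsub => hdX i (hsub ⟨i, rfl⟩)⟩
  intro ε hε
  obtain ⟨l, h, hm, hcov⟩ := even_cover (fun j => ε (2 * j)) (fun j => hε _)
  -- the exceptional set
  let h2 : ℕ → ℕ := fun m => h (h (m + 1) + 1)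
  let B : Set ι := {i | EvDom (g i) h2}
  have hB : SMZ ((fun i => phi (d i)) '' B) := smz_of_lt (lt_of_le_of_lt mk_image_le (hg h2))
  obtain ⟨a, b, hlen, hab⟩ := hB (fun j => ε (2 * j + 1)) (fun j => hε _)
  refine ⟨fun n => if n % 2 = 0 then l (n / 2) else a (n / 2),
    fun n => if n % 2 = 0 then l (n / 2) + ε n / 2 else b (n / 2), ?_, ?_⟩
  · intro n
    by_cases hn : n % 2 = 0
    · simp only [hn, if_true]
      have := hε n
      linarith
    · simp only [hn, if_false]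
      have := hlen (n / 2)
      have e : 2 * (n / 2) + 1 = n := by omega
      simp only [e] at this
      exact this
  · rintro _ ⟨i, rfl⟩
    show phi (d i) ∈ _
    by_cases hc : ∃ j, phi (d i) ∈ Icc (l j) (l j + ε (2 * j) / 2)
    · obtain ⟨j, hj⟩ := hc
      refine mem_iUnion.2 ⟨2 * j, ?_⟩
      have e1 : 2 * j % 2 = 0 := by omega
      have e2 : 2 * j / 2 = j := by omega
      simp only [e1, if_true, e2]
      exact hj
    · have hsp : ∀ n, ∃ k, n ≤ k ∧ k < h n ∧ d i k = true := by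
        intro n
        by_contra hcon
        push Not at hcon
        apply hc
        apply hcov (d i) n
        intro k h1 h2
        have := hcon k h1 h2
        simpa using this
      have hiB : i ∈ B := Eventually.of_forall fun m => bound_of_sparse hm (hd i) hsp m
      obtain ⟨j, hj⟩ := mem_iUnion.1 (hab ⟨i, hiB, rfl⟩)
      refine mem_iUnion.2 ⟨2 * j + 1, ?_⟩
      have e1 : ¬ ((2 * j + 1) % 2 = 0) := by omega
      have e2 : (2 * j + 1) / 2 = j := by omega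
      simp only [e1, if_false, e2]
      exact hj

theorem lt_cofSN {ι : Type} (g : ι → ℕ → ℕ)
    (hg : ∀ h : ℕ → ℕ, #{i : ι | EvDom (g i) h} < nonSN) : #ι < cofSN := by
  by_contra hc
  push Not at hc
  obtain ⟨F, hF, h1, h2⟩ := cofSN_spec
  obtain ⟨Y0, hY0, -⟩ := h2 ∅ (SMZ.countable countable_empty)
  have hFι : #F ≤ #ι := hF ▸ hc
  have : Nonempty F := ⟨⟨Y0, hY0⟩⟩
  obtain ⟨e⟩ := (Cardinal.le_def _ _).1 hFι
  obtain ⟨s, hs⟩ : ∃ s : ι → F, Function.Surjective s :=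
    ⟨Function.invFun e, Function.invFun_surjective e.injective⟩
  obtain ⟨Y, hY, hYs⟩ := diag g hg (fun i => (s i : Set ℝ)) (fun i => h1 _ (s i).2)
  obtain ⟨Z, hZ, hsub⟩ := h2 Y hY
  obtain ⟨i, hi⟩ := hs ⟨Z, hZ⟩
  apply hYs i
  rw [hi]
  exact hsub

/-! ### scales -/

theorem bNum_spec_lt {S : Set (ℕ → ℕ)} (h : #S < bNum) : ∃ g, ∀ f ∈ S, EvDom f g := by
  by_contra hc
  exact absurd h (not_lt.2 (csInf_le' ⟨S, rfl, hc⟩))

theorem dNum_spec_lt {S : Set (ℕ → ℕ)} (h : #S < dNum) : ∃ g, ∀ f ∈ S, ¬ EvDom g f := by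
  by_contra hc
  push Not at hc
  exact absurd h (not_lt.2 (csInf_le' ⟨S, rfl, hc⟩))

theorem dNum_nonempty :
    {κ | ∃ D : Set (ℕ → ℕ), #D = κ ∧ ∀ f, ∃ g ∈ D, EvDom f g}.Nonempty :=
  ⟨_, univ, rfl, fun f => ⟨f, mem_univ _, EvDom.refl f⟩⟩

theorem unbounded_of_dominating {D : Set (ℕ → ℕ)} (hD : ∀ f, ∃ g ∈ D, EvDom f g) :
    ¬ ∃ g, ∀ f ∈ D, EvDom f g := by
  rintro ⟨g, hg⟩
  obtain ⟨f, hf, h1⟩ := hD (fun n => g n + 1)
  obtain ⟨n, hn⟩ := (h1.trans (hg f hf)).exists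
  have : g n + 1 ≤ g n := hn
  omega

theorem bNum_nonempty :
    {κ | ∃ B : Set (ℕ → ℕ), #B = κ ∧ ¬ ∃ g, ∀ f ∈ B, EvDom f g}.Nonempty :=
  ⟨_, univ, rfl, unbounded_of_dominating fun f => ⟨f, mem_univ _, EvDom.refl f⟩⟩

theorem exists_bound_countable {S : Set (ℕ → ℕ)} (hS : S.Countable) :
    ∃ g, ∀ f ∈ S, EvDom f g := by
  rcases S.eq_empty_or_nonempty with rfl | hne
  · exact ⟨0, by simp⟩
  · obtain ⟨u, rfl⟩ := hS.exists_eq_range hne
    refine ⟨fun n => ∑ i ∈ Finset.range (n + 1), u i n, ?_⟩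
    rintro _ ⟨k, rfl⟩
    filter_upwards [eventually_ge_atTop k] with n hn
    exact Finset.single_le_sum (f := fun i => u i n) (fun _ _ => Nat.zero_le _)
      (Finset.mem_range.2 (by omega))

theorem aleph_one_le_bNum : ℵ₁ ≤ bNum := by
  apply le_csInf bNum_nonempty
  rintro κ ⟨B, rfl, hB⟩
  by_contra hc
  push Not at hc
  have : #B ≤ ℵ₀ := by
    rw [← Order.lt_succ_iff, succ_aleph0]; exact hc
  exact hB (exists_bound_countable (le_aleph0_iff_set_countable.1 this))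

/-- a `𝔟`-sequence of functions such that every `h` dominates fewer than `𝔟` of them -/
theorem exists_bscale : ∃ (ι : Type) (g : ι → ℕ → ℕ), #ι = bNum ∧
    ∀ h : ℕ → ℕ, #{i : ι | EvDom (g i) h} < bNum := by
  classical
  obtain ⟨U, hU, hUb⟩ := csInf_mem bNum_nonempty
  change #U = bNum at hU
  let ι := bNum.ord.ToType
  have hι : #ι = bNum := mk_ord_toType _
  have hIio : ∀ i : ι, #(Iio i) < bNum := fun i => mk_Iio_ord_toType i
  obtain ⟨e⟩ : Nonempty (ι ≃ U) := Cardinal.eq.1 (hι.trans hU.symm)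
  let f : ι → ℕ → ℕ := fun i => (e i : ℕ → ℕ)
  let step : (i : ι) → ((j : ι) → j < i → ℕ → ℕ) → ℕ → ℕ := fun i prev =>
    if h : ∃ u : ℕ → ℕ, (∀ j (hj : j < i), EvDom (prev j hj) u) ∧ EvDom (f i) u
      then h.choose else fun _ => 0
  let g : ι → ℕ → ℕ := WellFounded.fix (r := ((· < ·) : ι → ι → Prop)) wellFounded_lt step
  have hgeq : ∀ i, g i = step i (fun j _ => g j) := fun i => WellFounded.fix_eq _ _ _
  have hex : ∀ i, ∃ u : ℕ → ℕ, (∀ j, j < i → EvDom (g j) u) ∧ EvDom (f i) u := by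
    intro i
    have hlt : #(g '' Iio i) < bNum := lt_of_le_of_lt mk_image_le (hIio i)
    obtain ⟨u, hu⟩ := bNum_spec_lt hlt
    refine ⟨fun n => max (u n) (f i n), fun j hj => ?_, ?_⟩
    · exact (hu _ ⟨j, hj, rfl⟩).mono fun n hn => le_max_of_le_left hn
    · exact Eventually.of_forall fun n => le_max_right _ _
  have hg1 : ∀ i, (∀ j, j < i → EvDom (g j) (g i)) ∧ EvDom (f i) (g i) := by
    intro i
    have hs : step i (fun j _ => g j) = (hex i).choose := dif_pos (hex i)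
    rw [hgeq i, hs]
    exact (hex i).choose_spec
  refine ⟨ι, g, hι, ?_⟩
  intro h
  -- the set is bounded
  have hbd : ∃ i0 : ι, ∀ i, EvDom (g i) h → i < i0 := by
    by_contra hc
    push Not at hc
    apply hUb
    refine ⟨h, fun w hw => ?_⟩
    obtain ⟨i, hi, hle⟩ := hc (e.symm ⟨w, hw⟩)
    have hfw : f (e.symm ⟨w, hw⟩) = w := by simp [f]
    have h1 : EvDom w (g (e.symm ⟨w, hw⟩)) := by
      have := (hg1 (e.symm ⟨w, hw⟩)).2
      rwa [hfw] at this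
    rcases hle.lt_or_eq with hlt | heq
    · exact (h1.trans ((hg1 i).1 _ hlt)).trans hi
    · rw [heq] at h1; exact h1.trans hi
  obtain ⟨i0, hi0⟩ := hbd
  exact lt_of_le_of_lt (mk_le_mk_of_subset fun i hi => hi0 i hi) (hIio i0)

theorem bNum_le_dNum : bNum ≤ dNum := by
  obtain ⟨D, hD, hDd⟩ := csInf_mem dNum_nonempty
  change #D = dNum at hD
  rw [← hD]
  exact csInf_le' ⟨D, rfl, unbounded_of_dominating hDd⟩

theorem aleph0_le_dNum : ℵ₀ ≤ dNum :=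
  (aleph0_le_aleph 1).trans (aleph_one_le_bNum.trans bNum_le_dNum)

/-- a `𝔡`-sequence of functions such that every `h` dominates fewer than `𝔡` of them -/
theorem exists_dscale : ∃ (ι : Type) (g : ι → ℕ → ℕ), #ι = dNum ∧
    ∀ h : ℕ → ℕ, #{i : ι | EvDom (g i) h} < dNum := by
  classical
  obtain ⟨D, hD, hDd⟩ := csInf_mem dNum_nonempty
  change #D = dNum at hD
  let ι := dNum.ord.ToType
  have hι : #ι = dNum := mk_ord_toType _
  have hIio : ∀ i : ι, #(Iio i) < dNum := fun i => mk_Iio_ord_toType i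
  obtain ⟨e⟩ : Nonempty (ι ≃ D) := Cardinal.eq.1 (hι.trans hD.symm)
  let f : ι → ℕ → ℕ := fun i => (e i : ℕ → ℕ)
  have hex : ∀ i, ∃ u : ℕ → ℕ, ∀ j, j < i → ¬ EvDom u (f j) := by
    intro i
    have hlt : #(f '' Iio i) < dNum := lt_of_le_of_lt mk_image_le (hIio i)
    obtain ⟨u, hu⟩ := dNum_spec_lt hlt
    exact ⟨u, fun j hj => hu _ ⟨j, hj, rfl⟩⟩
  choose g hg using hex
  refine ⟨ι, g, hι, ?_⟩
  intro h
  obtain ⟨w, hw, hle⟩ := hDd h
  have hsub : {i : ι | EvDom (g i) h} ⊆ Iic (e.symm ⟨w, hw⟩) := by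
    intro i hi
    by_contra hc
    have hlt : e.symm ⟨w, hw⟩ < i := not_le.1 hc
    apply hg i _ hlt
    have hfw : f (e.symm ⟨w, hw⟩) = w := by simp [f]
    rw [hfw]
    exact EvDom.trans hi hle
  refine lt_of_le_of_lt (mk_le_mk_of_subset hsub) ?_
  have hins : Iic (e.symm ⟨w, hw⟩) = insert (e.symm ⟨w, hw⟩) (Iio (e.symm ⟨w, hw⟩)) :=
    Iio_insert.symm
  rw [hins]
  refine lt_of_le_of_lt (mk_insert_le) ?_
  have hinf : ℵ₀ ≤ dNum := aleph0_le_dNum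
  exact add_lt_of_lt hinf (hIio _) (one_lt_aleph0.trans_le hinf)

theorem bNum_lt_cofSN (h : bNum ≤ nonSN) : bNum < cofSN := by
  obtain ⟨ι, g, hι, hg⟩ := exists_bscale
  rw [← hι]
  exact lt_cofSN g fun u => (hg u).trans_le h

theorem dNum_lt_cofSN (h : dNum ≤ nonSN) : dNum < cofSN := by
  obtain ⟨ι, g, hι, hg⟩ := exists_dscale
  rw [← hι]
  exact lt_cofSN g fun u => (hg u).trans_le h

theorem of_cofSN_le (h : cofSN ≤ ℵ₁) : cofSN = ℵ₁ ∧ nonSN = ℵ₁ ∧ ℵ₁ < bNum := by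
  have h1 : nonSN = ℵ₁ := le_antisymm (nonSN_le_cofSN.trans h) aleph_one_le_nonSN
  have h0 : cofSN = ℵ₁ := le_antisymm h (aleph_one_le_nonSN.trans nonSN_le_cofSN)
  refine ⟨h0, h1, ?_⟩
  by_contra hc
  push Not at hc
  have h2 := bNum_lt_cofSN (hc.trans_eq h1.symm)
  exact absurd aleph_one_le_bNum (not_le.2 (h2.trans_le h))

end H995SN
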