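import Pool.Agent.H995R3.SN.Digits
import Pool.Agent.H995R3.SN.Chain

set_option linter.deprecated false

open Set Filter Cardinal Pointwise

namespace H995SN

variable {M : ℕ → ℕ}

theorem step (hM : ∀ k, 2 ≤ M k) {O : Set ℝ} (hO : IsOpen O) (hd : Dense O) (G : ℕ) :
    ∃ G' > G, ∃ w : ℕ → ℕ, (∀ k, w k < M k) ∧ ∀ t : ℕ → ℕ, (∀ k, t k < M k) →
      (∀ k, G ≤ k → k < G' → t k = w k) → D M t ∈ O := by
  classical
  have hqG := q_pos' hM G
  let U : ℕ → Set ℝ := fun p => (fun x => (p : ℝ) / q M G + x) ⁻¹' O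
  have hUo : ∀ p, IsOpen (U p) := fun p => hO.preimage (by fun_prop)
  have hUd : ∀ p, Dense (U p) := fun p =>
    hd.preimage (Homeomorph.addLeft ((p : ℝ) / q M G)).isOpenMap
  have hdense : Dense (⋂ p, U p) := dense_iInter_of_isOpen_nat hUo hUd
  obtain ⟨x, hxI, hxU⟩ := hdense.exists_mem_open (isOpen_Ioo (a := (0:ℝ)) (b := 1 / q M G))
    (nonempty_Ioo.2 (by positivity))
  have hWo : IsOpen (⋂ p ∈ Finset.range (q M G), U p) := isOpen_biInter_finset fun p _ => hUo p
  have hxW : x ∈ ⋂ p ∈ Finset.range (q M G), U p :=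
    mem_iInter₂.2 fun p _ => mem_iInter.1 hxI p
  obtain ⟨r, hr, hball⟩ := Metric.isOpen_iff.1 hWo x hxW
  obtain ⟨n, hn⟩ := exists_nat_gt (1 / r)
  let G' := max (G + 1) n
  have hqG' := q_pos' hM G'
  have hsmall : (1 : ℝ) / q M G' < r := by
    have h1 : (n : ℝ) ≤ G' := by exact_mod_cast le_max_right _ _
    have h2 : (G' : ℝ) < q M G' := by exact_mod_cast q_ge hM G'
    rw [div_lt_iff₀ hqG']
    rw [div_lt_iff₀ hr] at hn
    nlinarith
  let F : ℕ → ℕ := fun k => ⌊(q M k : ℝ) * x⌋₊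
  let w : ℕ → ℕ := fun k => F (k + 1) % M k
  have hw : ∀ k, w k < M k := fun k => Nat.mod_lt _ (by have := hM k; omega)
  have hF : ∀ k, F (k + 1) = M k * F k + w k := by
    intro k
    have h1 : F (k + 1) / M k = F k := by
      show ⌊(q M (k + 1) : ℝ) * x⌋₊ / M k = ⌊(q M k : ℝ) * x⌋₊
      rw [← Nat.floor_div_natCast]
      congr 1
      rw [q_succ_real]
      have : (M k : ℝ) ≠ 0 := by have := hM k; positivity
      field_simp
    have h2 := Nat.div_add_mod (F (k + 1)) (M k)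
    rw [h1] at h2
    exact h2.symm
  have hx0 : 0 < x := hxU.1
  have hx1 : x < 1 / q M G := hxU.2
  have hF0 : F 0 = 0 := by
    show ⌊(q M 0 : ℝ) * x⌋₊ = 0
    rw [Nat.floor_eq_zero, q_zero]
    have : (1 : ℝ) / q M G ≤ 1 := by
      rw [div_le_one hqG]
      exact_mod_cast q_pos hM G
    push_cast
    linarith
  have hFG : F G = 0 := by
    show ⌊(q M G : ℝ) * x⌋₊ = 0
    rw [Nat.floor_eq_zero]
    rw [lt_div_iff₀ hqG] at hx1
    linarith
  have hsum : ∀ k, (∑ i ∈ Finset.range k, tm M w i) = (F k : ℝ) / q M k := by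
    intro k
    induction k with
    | zero => simp [hF0]
    | succ k ih =>
      rw [Finset.sum_range_succ, ih, tm, hF, q_succ_real]
      have h1 := q_pos' hM k
      have h2 : (0 : ℝ) < M k := by have := hM k; positivity
      push_cast
      field_simp
  refine ⟨G', lt_of_lt_of_le (Nat.lt_succ_self G) (le_max_left _ _), w, hw, ?_⟩
  intro t ht htw
  obtain ⟨p, hp⟩ := exists_int hM t G
  have hp1 : p < q M G := by
    have := sum_lt_one hM ht G
    rw [hp, div_lt_one hqG] at this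
    exact_mod_cast this
  have hGG' : G ≤ G' := (Nat.le_succ G).trans (le_max_left _ _)
  have hdiff : (∑ i ∈ Finset.range G', tm M t i) - (∑ i ∈ Finset.range G, tm M t i) =
      (∑ i ∈ Finset.range G', tm M w i) - (∑ i ∈ Finset.range G, tm M w i) := by
    rw [← Finset.sum_Ico_eq_sub _ hGG', ← Finset.sum_Ico_eq_sub _ hGG']
    apply Finset.sum_congr rfl
    intro k hk
    rw [Finset.mem_Ico] at hk
    unfold tm
    rw [htw k hk.1 hk.2]
  rw [hsum, hsum, hFG, hp] at hdiff
  have hD := D_split hM ht G'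
  have hT1 := T_nonneg (M := M) t G'
  have hT2 := T_le hM ht G'
  have hmem : (F G' : ℝ) / q M G' + T M t G' ∈ Metric.ball x r := by
    rw [Metric.mem_ball, Real.dist_eq]
    have a1 := Nat.floor_le (show 0 ≤ (q M G' : ℝ) * x by positivity)
    have a2 := Nat.lt_floor_add_one ((q M G' : ℝ) * x)
    have a3 : (F G' : ℝ) / q M G' ≤ x := by
      rw [div_le_iff₀ hqG', mul_comm]; exact a1
    have a4 : x < (F G' : ℝ) / q M G' + 1 / q M G' := by
      rw [← add_div, lt_div_iff₀ hqG', mul_comm]; exact a2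
    rw [abs_lt]
    constructor <;> linarith
  have := mem_iInter₂.1 (hball hmem) p (Finset.mem_range.2 hp1)
  have e : D M t = (p : ℝ) / q M G + ((F G' : ℝ) / q M G' + T M t G') := by
    rw [hD]
    simp only [Nat.cast_zero, zero_div, sub_zero] at hdiff
    linarith
  rw [e]
  exact this

theorem exists_blk {g : ℕ → ℕ} (hg : StrictMono g) (h0 : g 0 = 0) (m : ℕ) :
    ∃ k, g k ≤ m ∧ m < g (k + 1) := by
  induction m with
  | zero => exact ⟨0, by simp [h0], by have := hg (show 0 < 0 + 1 by omega); omega⟩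
  | succ m ih =>
    obtain ⟨k, h1, h2⟩ := ih
    by_cases h : m + 1 < g (k + 1)
    · exact ⟨k, by omega, h⟩
    · exact ⟨k + 1, by omega, by have := hg (show k + 1 < k + 1 + 1 by omega); omega⟩

theorem blk_unique {g : ℕ → ℕ} (hg : StrictMono g) {n k k' : ℕ} (h1 : g k ≤ n)
    (h2 : n < g (k + 1)) (h3 : g k' ≤ n) (h4 : n < g (k' + 1)) : k = k' := by
  have a := hg.lt_iff_lt.1 (lt_of_le_of_lt h1 h4)
  have b := hg.lt_iff_lt.1 (lt_of_le_of_lt h3 h2)
  omega

def enc (c : ℕ → ℕ) (k : ℕ) : ℕ := 4 * (c k + 1)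

theorem not_meagre_of {N : ℕ → ℕ} (hMN : ∀ k, M k = 4 * N k + 8) {Y : Set ℝ}
    (hY : ∀ g v : ℕ → ℕ, StrictMono g → g 0 = 0 → ∃ c : ℕ → ℕ, (∀ k, c k < N k) ∧
      D M (enc c) ∈ Y ∧ ∀ m, ∃ n ≥ m, ∀ k, g n ≤ k → k < g (n + 1) → c k ≠ v k) :
    ¬ IsMeagre (Y + away M) := by
  classical
  have hM : ∀ k, 2 ≤ M k := fun k => by rw [hMN]; omega
  intro hmea
  obtain ⟨A, hA, hAG, hAd⟩ := mem_residual.1 hmea
  obtain ⟨f, hfo, rfl⟩ := isGδ_iff_eq_iInter_nat.1 hAG
  let O : ℕ → Set ℝ := fun n => ⋂ m ∈ Finset.range (n + 1), f m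
  have hOo : ∀ n, IsOpen (O n) := fun n => isOpen_biInter_finset fun m _ => hfo m
  have hOd : ∀ n, Dense (O n) := fun n => hAd.mono fun x hx =>
    mem_iInter₂.2 fun m _ => mem_iInter.1 hx m
  choose G' hG' w hw hstep using fun n G => step hM (hOo n) (hOd n) G
  let g : ℕ → ℕ := fun n => Nat.rec 0 (fun n G => G' n G) n
  have hgs : ∀ n, g (n + 1) = G' n (g n) := fun n => rfl
  have hg : StrictMono g := strictMono_nat_of_lt_succ fun n => by
    rw [hgs]; exact hG' n (g n)
  have hg0 : g 0 = 0 := rfl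
  choose blk hb1 hb2 using exists_blk hg hg0
  let w' : ℕ → ℕ := fun k => w (blk k) (g (blk k)) k
  have hw' : ∀ k, w' k < M k := fun k => hw _ _ k
  let v : ℕ → ℕ := fun k => (w' k + 1) / 4 - 1
  obtain ⟨c, hcN, hcY, hc⟩ := hY g v hg hg0
  let S : ℕ → Prop := fun n => ∀ k, g n ≤ k → k < g (n + 1) → c k ≠ v k
  let t : ℕ → ℕ := fun k => if S (blk k) then w' k else enc c k + 2
  have hb : ∀ k, enc c k < M k := fun k => by
    rw [hMN, enc]; have := hcN k; omega
  have ht : ∀ k, t k < M k := by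
    intro k
    by_cases h : S (blk k)
    · simp only [t, if_pos h]; exact hw' k
    · simp only [t, if_neg h]; rw [hMN, enc]; have := hcN k; omega
  have haway : D M t - D M (enc c) ∈ away M := by
    apply sub_mem_away hM ht hb
    · intro k
      by_cases h : S (blk k)
      · simp only [t, if_pos h]
        have h1 : c k ≠ (w' k + 1) / 4 - 1 := h k (hb1 k) (hb2 k)
        unfold enc
        omega
      · simp only [t, if_neg h]
        right; omega
    · intro k
      have := hcN k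
      rw [hMN]; unfold enc; omega
    · intro k
      have := ht k
      unfold enc; omega
  have hmem : D M t ∈ Y + away M := by
    refine ⟨D M (enc c), hcY, D M t - D M (enc c), haway, by ring⟩
  have hall : D M t ∈ ⋂ m, f m := by
    rw [mem_iInter]
    intro m
    obtain ⟨n, hn, hS⟩ := hc m
    have hDn : D M t ∈ O n := by
      apply hstep n (g n) t ht
      intro k hk1 hk2
      have hbk : blk k = n := blk_unique hg (hb1 k) (hb2 k) hk1 hk2
      simp only [t]
      rw [if_pos (by rw [hbk]; exact hS)]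
      show w (blk k) (g (blk k)) k = _
      rw [hbk]
    exact mem_iInter₂.1 hDn m (Finset.mem_range.2 (by omega))
  exact hA hall hmem

end H995SN
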