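import Pool.Agent.H995R3.SN.Main

set_option linter.deprecated false

open Set Filter Cardinal

namespace H995SN

variable {α β : Type} [MetricSpace α] [MetricSpace β]

/-- strong measure zero in a metric space -/
def SM (X : Set α) : Prop :=
  ∀ ε : ℕ → ℝ, (∀ n, 0 < ε n) → ∃ c : ℕ → α, X ⊆ ⋃ n, Metric.closedBall (c n) (ε n)

theorem smz_iff {X : Set ℝ} : SMZ X ↔ SM X := by
  constructor
  · intro h ε hε
    obtain ⟨a, b, h1, h2⟩ := h ε hε
    refine ⟨a, fun x hx => ?_⟩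
    obtain ⟨n, hn⟩ := mem_iUnion.1 (h2 hx)
    refine mem_iUnion.2 ⟨n, ?_⟩
    rw [Metric.mem_closedBall, Real.dist_eq, abs_le]
    have := h1 n
    have := hε n
    constructor <;> linarith [hn.1, hn.2]
  · intro h ε hε
    obtain ⟨c, hc⟩ := h (fun n => ε n / 3) (fun n => by have := hε n; positivity)
    refine ⟨fun n => c n - ε n / 3, fun n => c n + ε n / 3, fun n => ?_, fun x hx => ?_⟩
    · have := hε n
      linarith
    · obtain ⟨n, hn⟩ := mem_iUnion.1 (hc hx)
      refine mem_iUnion.2 ⟨n, ?_⟩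
      rwa [Real.closedBall_eq_Icc] at hn

theorem SM.mono {X Y : Set α} (h : X ⊆ Y) (hY : SM Y) : SM X := fun ε hε => by
  obtain ⟨c, hc⟩ := hY ε hε
  exact ⟨c, h.trans hc⟩

theorem SM.iUnion {X : ℕ → Set α} (h : ∀ k, SM (X k)) : SM (⋃ k, X k) := by
  intro ε hε
  choose c hc using fun k => h k (fun n => ε (Nat.pair k n)) (fun n => hε _)
  refine ⟨fun m => c m.unpair.1 m.unpair.2, fun x hx => ?_⟩
  obtain ⟨k, hk⟩ := mem_iUnion.1 hx
  obtain ⟨n, hn⟩ := mem_iUnion.1 (hc k hk)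
  refine mem_iUnion.2 ⟨Nat.pair k n, ?_⟩
  simpa using hn

theorem SM.union {X Y : Set α} (hX : SM X) (hY : SM Y) : SM (X ∪ Y) := by
  have : SM (⋃ k : ℕ, (if k = 0 then X else Y)) := SM.iUnion fun k => by
    split_ifs
    · exact hX
    · exact hY
  refine this.mono ?_
  rintro x (hx | hx)
  · exact mem_iUnion.2 ⟨0, by simpa using hx⟩
  · exact mem_iUnion.2 ⟨1, by simpa using hx⟩

/-- every point is caught infinitely often -/
theorem SM.io {X : Set α} (h : SM X) (ε : ℕ → ℝ) (hε : ∀ n, 0 < ε n) :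
    ∃ c : ℕ → α, ∀ x ∈ X, ∀ N, ∃ n, N ≤ n ∧ x ∈ Metric.closedBall (c n) (ε n) := by
  choose c hc using fun k : ℕ => h (fun n => ε (Nat.pair k n)) (fun n => hε _)
  refine ⟨fun m => c m.unpair.1 m.unpair.2, fun x hx N => ?_⟩
  obtain ⟨n, hn⟩ := mem_iUnion.1 (hc N hx)
  refine ⟨Nat.pair N n, Nat.left_le_pair _ _, ?_⟩
  simpa using hn

theorem exists_anti (ε : ℕ → ℝ) (hε : ∀ n, 0 < ε n) :
    ∃ e : ℕ → ℝ, (∀ n, 0 < e n) ∧ ∀ n m, n ≤ m → e m ≤ ε n := by
  refine ⟨fun m => (Finset.range (m + 1)).inf' (Finset.nonempty_range_add_one) ε,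
    fun n => ?_, fun n m h => ?_⟩
  · show 0 < (Finset.range (n + 1)).inf' (Finset.nonempty_range_add_one) ε
    rw [Finset.lt_inf'_iff]
    exact fun i _ => hε i
  · exact Finset.inf'_le _ (Finset.mem_range.2 (by omega))

theorem block_unique {g : ℕ → ℕ} {n k k' : ℕ} (h1 : pos g k ≤ n) (h2 : n < pos g (k + 1))
    (h3 : pos g k' ≤ n) (h4 : n < pos g (k' + 1)) : k = k' := by
  have a := (pos_strictMono g).lt_iff_lt.1 (lt_of_le_of_lt h1 h4)
  have b := (pos_strictMono g).lt_iff_lt.1 (lt_of_le_of_lt h3 h2)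
  omega

theorem le_pos_self (g : ℕ → ℕ) (k : ℕ) : k ≤ pos g k := (pos_strictMono g).id_le k

/-- product with a small set -/
theorem SM.prod {U : Set α} {V : Set β} (hU : SM U) (hV : SM V) (hc : #U < bNum) :
    SM (U ×ˢ V) := by
  classical
  intro ε hε
  obtain ⟨c, hcU⟩ := hU.io ε hε
  -- next element functions
  choose! f hf1 hf2 using hcU
  have hB : #((fun u => f u) '' U) < bNum := lt_of_le_of_lt mk_image_le hc
  obtain ⟨h, hh⟩ := bNum_spec_lt hB
  obtain ⟨e, he1, he2⟩ := exists_anti ε hε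
  obtain ⟨d, hdV⟩ := hV.io (fun k => e (pos h (k + 1))) (fun k => he1 _)
  choose blk hblk1 hblk2 using exists_block h
  refine ⟨fun n => (c n, d (blk n)), ?_⟩
  rintro ⟨u, v⟩ ⟨hu, hv⟩
  have hdom : EvDom (f u) h := hh _ ⟨u, hu, rfl⟩
  obtain ⟨N, hN⟩ := eventually_atTop.1 hdom
  obtain ⟨k, hk1, hk2⟩ := hdV v hv N
  have hkN : N ≤ pos h k := hk1.trans (le_pos_self h k)
  have h1 : f u (pos h k) ≤ h (pos h k) := hN _ hkN
  have h2 : h (pos h k) < pos h (k + 1) := le_pos h le_rfl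
  have h3 : pos h k ≤ f u (pos h k) := hf1 u hu _
  have h4 : u ∈ Metric.closedBall (c (f u (pos h k))) (ε (f u (pos h k))) := hf2 u hu _
  have hb : blk (f u (pos h k)) = k :=
    block_unique (hblk1 _) (hblk2 _) h3 (lt_of_le_of_lt h1 h2)
  refine mem_iUnion.2 ⟨f u (pos h k), ?_⟩
  rw [← closedBall_prod_same]
  refine ⟨h4, ?_⟩
  show v ∈ Metric.closedBall (d (blk (f u (pos h k)))) _
  rw [hb]
  exact Metric.closedBall_subset_closedBall (he2 _ _ (by omega)) hk2

/-- uniformly continuous images -/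
theorem SM.image_unif [Nonempty β] {X C : Set α} {f : α → β} (hX : SM X) (hXC : X ⊆ C)
    (hf : UniformContinuousOn f C) : SM (f '' X) := by
  classical
  intro ε hε
  rw [Metric.uniformContinuousOn_iff] at hf
  choose δ hδ1 hδ2 using fun n => hf (ε n) (hε n)
  obtain ⟨c, hc⟩ := hX (fun n => δ n / 3) (fun n => by have := hδ1 n; positivity)
  let b : β := Classical.arbitrary β
  refine ⟨fun n => if h : ∃ x ∈ X, x ∈ Metric.closedBall (c n) (δ n / 3) then f h.choose else b,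
    ?_⟩
  rintro _ ⟨x, hx, rfl⟩
  obtain ⟨n, hn⟩ := mem_iUnion.1 (hc hx)
  have hex : ∃ x ∈ X, x ∈ Metric.closedBall (c n) (δ n / 3) := ⟨x, hx, hn⟩
  refine mem_iUnion.2 ⟨n, ?_⟩
  simp only [dif_pos hex]
  have hs := hex.choose_spec
  have hd : dist x hex.choose < δ n := by
    have h1 := Metric.mem_closedBall.1 hn
    have h2 := Metric.mem_closedBall.1 hs.2
    have h3 := dist_triangle_right x hex.choose (c n)
    have := hδ1 n
    linarith
  exact (hδ2 n x (hXC hx) _ (hXC hs.1) hd).le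

theorem uniformContinuousOn_of_graph {ψ : α → β} {π : (ℕ → ℕ) → α} (hπ : Continuous π)
    (hφ : Continuous (fun x => ψ (π x))) {K : Set (ℕ → ℕ)} (hK : IsCompact K) :
    UniformContinuousOn ψ (π '' K) := by
  apply (hK.image hπ).uniformContinuousOn_of_continuous
  rw [continuousOn_iff_isClosed]
  intro t ht
  refine ⟨π '' (K ∩ (fun x => ψ (π x)) ⁻¹' t), ?_, ?_⟩
  · exact ((hK.inter_right (ht.preimage hφ)).image hπ).isClosed
  · ext y
    constructor
    · rintro ⟨h1, x, hx, rfl⟩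
      exact ⟨⟨x, ⟨hx, h1⟩, rfl⟩, ⟨x, hx, rfl⟩⟩
    · rintro ⟨⟨x, ⟨hx, h1⟩, rfl⟩, h2⟩
      exact ⟨h1, h2⟩

theorem isCompact_box (h : ℕ → ℕ) : IsCompact {x : ℕ → ℕ | ∀ n, x n ≤ h n} := by
  have : {x : ℕ → ℕ | ∀ n, x n ≤ h n} = Set.pi univ (fun n => Iic (h n)) := by
    ext x; simp [Pi.le_def]
  rw [this]
  exact isCompact_univ_pi fun n => (finite_Iic (h n)).isCompact

theorem exists_param [SecondCountableTopology α] [CompleteSpace α] [MeasurableSpace α]
    [BorelSpace α] [SecondCountableTopology β] [MeasurableSpace β] [BorelSpace β] [Nonempty α]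
    {ψ : α → β} (hψ : Measurable ψ) :
    ∃ π : (ℕ → ℕ) → α, Continuous π ∧ Continuous (fun x => ψ (π x)) ∧ Function.Surjective π := by
  obtain ⟨t', ht', hcont, hpol⟩ := hψ.exists_continuous
  obtain ⟨π, hπ, hsurj⟩ : ∃ π : (ℕ → ℕ) → α, @Continuous _ _ _ t' π ∧ Function.Surjective π :=
    @PolishSpace.exists_nat_nat_continuous_surjective α t' hpol _
  exact ⟨π, continuous_le_rng ht' hπ, @Continuous.comp _ _ _ _ t' _ _ _ hcont hπ, hsurj⟩

/-- Borel images of strong measure zero sets of size `< 𝔟`. -/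
theorem SM.image_borel [SecondCountableTopology α] [CompleteSpace α] [MeasurableSpace α]
    [BorelSpace α] [SecondCountableTopology β] [MeasurableSpace β] [BorelSpace β] [Nonempty α]
    {X : Set α} (hX : SM X) (hc : #X < bNum) {ψ : α → β} (hψ : Measurable ψ) :
    SM (ψ '' X) := by
  classical
  obtain ⟨π, hπ1, hφ, hsurj⟩ := exists_param hψ
  choose s hs using hsurj
  have hB : #(s '' X) < bNum := lt_of_le_of_lt mk_image_le hc
  obtain ⟨h, hh⟩ := bNum_spec_lt hB
  let K : ℕ → Set (ℕ → ℕ) := fun m => {x | ∀ n, x n ≤ h n + m}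
  have hK : ∀ m, IsCompact (K m) := fun m => isCompact_box _
  have hcover : X ⊆ ⋃ m, (X ∩ π '' K m) := by
    intro x hx
    obtain ⟨N, hN⟩ := eventually_atTop.1 (hh (s x) ⟨x, hx, rfl⟩)
    refine mem_iUnion.2 ⟨∑ i ∈ Finset.range N, s x i, hx, s x, ?_, hs x⟩
    intro n
    by_cases hn : n < N
    · have : s x n ≤ ∑ i ∈ Finset.range N, s x i :=
        Finset.single_le_sum (f := s x) (fun _ _ => Nat.zero_le _) (Finset.mem_range.2 hn)
      omega
    · have := hN n (by omega)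
      omega
  have himg : ψ '' X ⊆ ⋃ m, ψ '' (X ∩ π '' K m) := by
    rw [← image_iUnion]
    exact image_mono hcover
  have : Nonempty β := ⟨ψ (Classical.arbitrary α)⟩
  refine (SM.iUnion fun m => ?_).mono himg
  exact (hX.mono inter_subset_left).image_unif inter_subset_right
    (uniformContinuousOn_of_graph hπ1 hφ (hK m))

end H995SN
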