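import Pool.Agent.H995R3.SN.Metric

set_option linter.deprecated false

open Set Filter Cardinal

namespace H995SN

/-- A set which is not SMZ has a subset of size at most `cof(SN)` which is not SMZ. -/
theorem exists_small_subset {X : Set ℝ} (hX : ¬ SMZ X) :
    ∃ Y ⊆ X, #Y ≤ cofSN ∧ ¬ SMZ Y := by
  obtain ⟨F, hF, h1, h2⟩ := cofSN_spec
  have hex : ∀ A : F, ∃ x ∈ X, x ∉ (A : Set ℝ) := by
    intro A
    by_contra hc
    push Not at hc
    exact hX ((h1 A A.2).mono hc)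
  choose y hyX hyA using hex
  refine ⟨range y, ?_, mk_range_le.trans_eq hF, ?_⟩
  · rintro _ ⟨A, rfl⟩
    exact hyX A
  · intro hs
    obtain ⟨A, hA, hsub⟩ := h2 _ hs
    exact hyA ⟨A, hA⟩ (hsub ⟨⟨A, hA⟩, rfl⟩)

/-- If `cof(SN) = ℵ₁` then Borel images of products of SMZ sets are SMZ. -/
theorem image2_borel (hcof : cofSN ≤ ℵ₁) {ψ : ℝ × ℝ → ℝ} (hψ : Measurable ψ) {X Y : Set ℝ}
    (hX : SMZ X) (hY : SMZ Y) : SMZ (ψ '' (X ×ˢ Y)) := by
  classical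
  by_contra hc
  obtain ⟨Z, hZ, hZc, hZn⟩ := exists_small_subset hc
  have hb : ℵ₁ < bNum := (of_cofSN_le hcof).2.2
  choose! w hw using fun z (hz : z ∈ Z) => hZ hz
  let U : Set ℝ := (fun z => (w z).1) '' Z
  let V : Set ℝ := (fun z => (w z).2) '' Z
  have hZ1 : #Z ≤ ℵ₁ := hZc.trans hcof
  have hU1 : #U ≤ ℵ₁ := mk_image_le.trans hZ1
  have hV1 : #V ≤ ℵ₁ := mk_image_le.trans hZ1
  have hUX : U ⊆ X := by
    rintro _ ⟨z, hz, rfl⟩
    exact (hw z hz).1.1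
  have hVY : V ⊆ Y := by
    rintro _ ⟨z, hz, rfl⟩
    exact (hw z hz).1.2
  have hU : SM U := smz_iff.1 (hX.mono hUX)
  have hV : SM V := smz_iff.1 (hY.mono hVY)
  have hUV : SM (U ×ˢ V) := hU.prod hV (hU1.trans_lt hb)
  have hcard : #(U ×ˢ V : Set (ℝ × ℝ)) < bNum := by
    rw [mk_setProd]
    refine lt_of_le_of_lt (mul_le_mul' hU1 hV1) ?_
    rw [mul_eq_self (aleph0_le_aleph 1)]
    exact hb
  have himg : SM (ψ '' (U ×ˢ V)) := hUV.image_borel hcard hψ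
  apply hZn
  refine (smz_iff.2 himg).mono ?_
  intro z hz
  refine ⟨w z, ⟨⟨z, hz, rfl⟩, ⟨z, hz, rfl⟩⟩, (hw z hz).2⟩

theorem image_borel (hcof : cofSN ≤ ℵ₁) {ψ : ℝ → ℝ} (hψ : Measurable ψ) {X : Set ℝ}
    (hX : SMZ X) : SMZ (ψ '' X) := by
  have h := image2_borel hcof (ψ := fun p => ψ p.1) (hψ.comp measurable_fst) hX hX
  refine h.mono ?_
  rintro _ ⟨x, hx, rfl⟩
  exact ⟨(x, x), ⟨hx, hx⟩, rfl⟩

theorem SMZ.union {X Y : Set ℝ} (hX : SMZ X) (hY : SMZ Y) : SMZ (X ∪ Y) :=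
  smz_iff.2 ((smz_iff.1 hX).union (smz_iff.1 hY))

theorem SMZ.iUnion {X : ℕ → Set ℝ} (h : ∀ k, SMZ (X k)) : SMZ (⋃ k, X k) :=
  smz_iff.2 (SM.iUnion fun k => smz_iff.1 (h k))

/-- one step of closing off under the field operations -/
def stepF (X : Set ℝ) : Set ℝ :=
  (X ∪ ({0, 1} : Set ℝ)) ∪ (((fun p : ℝ × ℝ => p.1 + p.2) '' (X ×ˢ X)) ∪
    ((fun p : ℝ × ℝ => p.1 * p.2) '' (X ×ˢ X))) ∪
    (((fun x : ℝ => -x) '' X) ∪ ((fun x : ℝ => x⁻¹) '' X))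

def iterF (X : Set ℝ) : ℕ → Set ℝ
  | 0 => X
  | n + 1 => stepF (iterF X n)

theorem smz_stepF (hcof : cofSN ≤ ℵ₁) {X : Set ℝ} (hX : SMZ X) : SMZ (stepF X) := by
  unfold stepF
  refine ((hX.union (SMZ.countable (by simp))).union ?_).union ?_
  · exact (image2_borel hcof (by fun_prop) hX hX).union (image2_borel hcof (by fun_prop) hX hX)
  · exact (image_borel hcof (by fun_prop) hX).union (image_borel hcof (by fun_prop) hX)

theorem subset_stepF (X : Set ℝ) : X ⊆ stepF X := fun _ hx => Or.inl (Or.inl (Or.inl hx))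

theorem iterF_mono (X : Set ℝ) : Monotone (iterF X) :=
  monotone_nat_of_le_succ fun _ => subset_stepF _

theorem smz_closure (hcof : cofSN ≤ ℵ₁) {X : Set ℝ} (hX : SMZ X) :
    SMZ (Subfield.closure X : Set ℝ) := by
  have hit : ∀ n, SMZ (iterF X n) := by
    intro n
    induction n with
    | zero => exact hX
    | succ n ih => exact smz_stepF hcof ih
  have hU : SMZ (⋃ n, iterF X n) := SMZ.iUnion hit
  refine hU.mono ?_
  have two : ∀ {x y : ℝ}, x ∈ (⋃ n, iterF X n) → y ∈ (⋃ n, iterF X n) →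
      ∃ n, x ∈ iterF X n ∧ y ∈ iterF X n := by
    intro x y hx hy
    obtain ⟨n, hn⟩ := mem_iUnion.1 hx
    obtain ⟨m, hm⟩ := mem_iUnion.1 hy
    exact ⟨max n m, iterF_mono X (le_max_left _ _) hn, iterF_mono X (le_max_right _ _) hm⟩
  let K : Subfield ℝ :=
    { carrier := ⋃ n, iterF X n
      mul_mem' := by
        intro x y hx hy
        obtain ⟨n, h1, h2⟩ := two hx hy
        exact mem_iUnion.2 ⟨n + 1, Or.inl (Or.inr (Or.inr ⟨(x, y), ⟨h1, h2⟩, rfl⟩))⟩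
      one_mem' := mem_iUnion.2 ⟨1, Or.inl (Or.inl (Or.inr (by simp)))⟩
      add_mem' := by
        intro x y hx hy
        obtain ⟨n, h1, h2⟩ := two hx hy
        exact mem_iUnion.2 ⟨n + 1, Or.inl (Or.inr (Or.inl ⟨(x, y), ⟨h1, h2⟩, rfl⟩))⟩
      zero_mem' := mem_iUnion.2 ⟨1, Or.inl (Or.inl (Or.inr (by simp)))⟩
      neg_mem' := by
        intro x hx
        obtain ⟨n, h1⟩ := mem_iUnion.1 hx
        exact mem_iUnion.2 ⟨n + 1, Or.inr (Or.inl ⟨x, h1, rfl⟩)⟩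
      inv_mem' := by
        intro x hx
        obtain ⟨n, h1⟩ := mem_iUnion.1 hx
        exact mem_iUnion.2 ⟨n + 1, Or.inr (Or.inr ⟨x, h1, rfl⟩)⟩ }
  have hle : Subfield.closure X ≤ K := by
    rw [Subfield.closure_le]
    exact fun x hx => mem_iUnion.2 ⟨0, hx⟩
  exact hle

end H995SN
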